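import Mathlib

/-!
# Row Av: averaging

PROOF. Let `N` be the number of the `f` in question. For each such `f` the number of `a` with
`¬ p f a` is more than half of `Fintype.card A` (`filter` and its complement). Double counting:
`N * (Fintype.card A / 2) ≤ ∑ f, #{a | ¬ p f a} = ∑ a, #{f | ¬ p f a} ≤ Fintype.card A * ν`
(`Finset.sum_card_bipartiteAbove_eq_sum_card_bipartiteBelow` or `Finset.sum_comm`), and
`Fintype.card A > 0`.
-/

namespace Pool.Agent.H13.LD

open Finset

open Classical in
theorem averaging {A B : Type} [Fintype A] [Fintype B] [Nonempty A] (p : B → A → Prop) (ν : ℝ)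
    (h : ∀ a, ((univ.filter fun f => ¬ p f a).card : ℝ) ≤ ν) :
    ((univ.filter fun f => 2 * (univ.filter fun a => p f a).card < Fintype.card A).card : ℝ) ≤
      2 * ν := by
  set S := univ.filter fun f => 2 * (univ.filter fun a => p f a).card < Fintype.card A with hS
  have hA : 0 < Fintype.card A := Fintype.card_pos
  have key : ∀ f ∈ S, ((Fintype.card A : ℝ)) ≤ 2 * ((univ.filter fun a => ¬ p f a).card : ℝ) := by
    intro f hf
    have h1 : 2 * (univ.filter fun a => p f a).card < Fintype.card A := (Finset.mem_filter.1 hf).2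
    have h2 : (univ.filter fun a => p f a).card + (univ.filter fun a => ¬ p f a).card =
        Fintype.card A := by
      rw [← Finset.card_univ]
      exact Finset.card_filter_add_card_filter_not (s := univ) (fun a => p f a)
    have h3 : Fintype.card A ≤ 2 * (univ.filter fun a => ¬ p f a).card := by omega
    exact_mod_cast h3
  have hsum : ∑ f ∈ S, ((univ.filter fun a => ¬ p f a).card : ℝ) ≤ (Fintype.card A : ℝ) * ν := by
    calc ∑ f ∈ S, ((univ.filter fun a => ¬ p f a).card : ℝ)
        ≤ ∑ f : B, ((univ.filter fun a => ¬ p f a).card : ℝ) :=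
          Finset.sum_le_sum_of_subset_of_nonneg (Finset.subset_univ _) (fun _ _ _ => by positivity)
      _ = ∑ f : B, ∑ a : A, (if ¬ p f a then (1 : ℝ) else 0) := by
          apply Finset.sum_congr rfl
          intro f _
          rw [Finset.sum_boole]
      _ = ∑ a : A, ∑ f : B, (if ¬ p f a then (1 : ℝ) else 0) := Finset.sum_comm
      _ = ∑ a : A, ((univ.filter fun f => ¬ p f a).card : ℝ) := by
          apply Finset.sum_congr rfl
          intro a _
          rw [Finset.sum_boole]
      _ ≤ ∑ a : A, ν := Finset.sum_le_sum (fun a _ => h a)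
      _ = (Fintype.card A : ℝ) * ν := by
          rw [Finset.sum_const, Finset.card_univ, nsmul_eq_mul]
  have h4 : (S.card : ℝ) * (Fintype.card A : ℝ) ≤ 2 * ((Fintype.card A : ℝ) * ν) := by
    calc (S.card : ℝ) * (Fintype.card A : ℝ) = ∑ f ∈ S, (Fintype.card A : ℝ) := by
          rw [Finset.sum_const, nsmul_eq_mul]
      _ ≤ ∑ f ∈ S, 2 * ((univ.filter fun a => ¬ p f a).card : ℝ) := Finset.sum_le_sum key
      _ = 2 * ∑ f ∈ S, ((univ.filter fun a => ¬ p f a).card : ℝ) := by rw [Finset.mul_sum]
      _ ≤ 2 * ((Fintype.card A : ℝ) * ν) := by linarith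
  have hA' : (0 : ℝ) < Fintype.card A := by exact_mod_cast hA
  have h5 : (S.card : ℝ) * (Fintype.card A : ℝ) ≤ (2 * ν) * (Fintype.card A : ℝ) := by linarith
  exact le_of_mul_le_mul_right h5 hA'

end Pool.Agent.H13.LD
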