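import Pool.Agent.H13.LD.Core

/-!
# Row Bal: assignments that satisfy few literals of a wide clause

PROOF. Let `L = C.card ≥ μ`; the variables of the literals of `C` are different, so `L ≤ n`. The map
`a ↦ (D, a restricted to the variables outside vars C)`, `D = C.filter fun l => a l.1 = l.2`, is
injective on assignments (on `vars C` the value `a l.1` is `l.2` if `l ∈ D` and `!l.2` otherwise), its
first component is a subset of `C` with at most `t` elements and there are `2 ^ (n - L)`
possibilities for the second. So the number is at most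
`2 ^ (n - L) * ∑ i ∈ range (t + 1), L.choose i ≤ 2 ^ (n - μ) * ∑ i ∈ range (t + 1), n.choose i`
(`Nat.choose_le_choose`, `Nat.pow_le_pow_right`). Alternatively: for fixed `D ⊆ C` the number of `a`
with `C.filter (..) = D` is at most `2 ^ (n - L)` (such `a` are determined by their values outside
`vars C`), and sum over the `D ∈ C.powerset` with `D.card ≤ t`.
-/

namespace Pool.Agent.H13.LD

open Finset

theorem card_ball {n : ℕ} (C : Clause n) (t μ : ℕ) (hμ : μ ≤ C.card)
    (hf : ∀ l ∈ C, ∀ l' ∈ C, l.1 = l'.1 → l = l') :
    (univ.filter fun a : Fin n → Bool => (C.filter fun l => a l.1 = l.2).card ≤ t).card ≤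
      2 ^ (n - μ) * ∑ i ∈ range (t + 1), n.choose i := by
  have hL : (vars C).card = C.card := Finset.card_image_of_injOn (fun l hl l' hl' h => hf l hl l' hl' h)
  have hLn : C.card ≤ n := by
    rw [← hL]
    refine (Finset.card_le_univ _).trans (le_of_eq ?_)
    rw [Fintype.card_fin]
  have h1 : (univ.filter fun a : Fin n → Bool => (C.filter fun l => a l.1 = l.2).card ≤ t).card ≤
      (((range (t + 1)).biUnion fun i => C.powersetCard i) ×ˢ (univ \ vars C).powerset).card := by
    refine Finset.card_le_card_of_injOn
      (fun a => (C.filter fun l => a l.1 = l.2, (univ \ vars C).filter fun x => a x = true)) ?_ ?_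
    · intro a ha
      have ha2 := (Finset.mem_filter.1 (Finset.mem_coe.1 ha)).2
      refine Finset.mem_coe.2 (Finset.mem_product.2 ⟨?_, ?_⟩)
      · refine Finset.mem_biUnion.2 ⟨(C.filter fun l => a l.1 = l.2).card, ?_, ?_⟩
        · exact Finset.mem_range.2 (Nat.lt_succ_of_le ha2)
        · exact Finset.mem_powersetCard.2 ⟨Finset.filter_subset _ _, rfl⟩
      · exact Finset.mem_powerset.2 (Finset.filter_subset _ _)
    · intro a _ a' _ h
      have hD := congrArg Prod.fst h
      have hE := congrArg Prod.snd h
      funext x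
      by_cases hx : x ∈ vars C
      · obtain ⟨l, hl, rfl⟩ := Finset.mem_image.1 hx
        have h2 : l ∈ (C.filter fun l => a l.1 = l.2) ↔ l ∈ (C.filter fun l => a' l.1 = l.2) :=
          iff_of_eq (congrArg (fun s => l ∈ s) hD)
        rw [Finset.mem_filter, Finset.mem_filter] at h2
        have h3 : a l.1 = l.2 ↔ a' l.1 = l.2 :=
          ⟨fun h4 => (h2.1 ⟨hl, h4⟩).2, fun h4 => (h2.2 ⟨hl, h4⟩).2⟩
        revert h3
        cases a l.1 <;> cases a' l.1 <;> cases l.2 <;> simp
      · have hx2 : x ∈ univ \ vars C := Finset.mem_sdiff.2 ⟨Finset.mem_univ _, hx⟩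
        have h2 : x ∈ ((univ \ vars C).filter fun x => a x = true) ↔
            x ∈ ((univ \ vars C).filter fun x => a' x = true) :=
          iff_of_eq (congrArg (fun s => x ∈ s) hE)
        rw [Finset.mem_filter, Finset.mem_filter] at h2
        have h3 : a x = true ↔ a' x = true :=
          ⟨fun h4 => (h2.1 ⟨hx2, h4⟩).2, fun h4 => (h2.2 ⟨hx2, h4⟩).2⟩
        revert h3
        cases a x <;> cases a' x <;> simp
  refine h1.trans ?_
  rw [Finset.card_product, Finset.card_powerset, Finset.card_sdiff_of_subset (Finset.subset_univ _),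
    hL, Finset.card_univ, Fintype.card_fin, mul_comm]
  refine Nat.mul_le_mul (Nat.pow_le_pow_right (by norm_num) (by omega)) ?_
  refine Finset.card_biUnion_le.trans (Finset.sum_le_sum fun i _ => ?_)
  rw [Finset.card_powersetCard]
  exact Nat.choose_le_choose i hLn

end Pool.Agent.H13.LD
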