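import Mathlib

/-!
# Row Cf: functions with values in `X` on `S`

PROOF. The set is the `Fintype.piFinset` of the sets `X` (for `i ∈ S`) and `univ` (for `i ∉ S`);
`Fintype.card_piFinset`, and the product over `i` splits into `i ∈ S` and `i ∉ S`
(`Finset.prod_ite`/`Finset.prod_const`, `S.card` and `m - S.card` factors).
-/

namespace Pool.Agent.H13.LD

open Finset

theorem card_fun_mem {m : ℕ} {β : Type} [Fintype β] [DecidableEq β] (S : Finset (Fin m))
    (X : Finset β) :
    (univ.filter fun f : Fin m → β => ∀ i ∈ S, f i ∈ X).card =
      X.card ^ S.card * (Fintype.card β) ^ (m - S.card) := by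
  have h : (univ.filter fun f : Fin m → β => ∀ i ∈ S, f i ∈ X) =
      Fintype.piFinset (fun i => if i ∈ S then X else univ) := by
    ext f
    rw [mem_filter, Fintype.mem_piFinset]
    constructor
    · rintro ⟨-, hf⟩ i
      by_cases hi : i ∈ S
      · rw [if_pos hi]
        exact hf i hi
      · rw [if_neg hi]
        exact mem_univ _
    · intro hf
      refine ⟨mem_univ _, fun i hi => ?_⟩
      have := hf i
      rwa [if_pos hi] at this
  rw [h, Fintype.card_piFinset]
  have h2 : ∀ i : Fin m, (if i ∈ S then X else univ : Finset β).card =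
      if i ∈ S then X.card else Fintype.card β := by
    intro i
    split_ifs
    · rfl
    · rfl
  simp_rw [h2]
  rw [Finset.prod_ite, Finset.prod_const, Finset.prod_const]
  congr 2
  · rw [Finset.filter_mem_eq_inter, Finset.univ_inter]
  · have h3 : (univ.filter fun i : Fin m => i ∉ S) = Sᶜ := by
      ext i
      simp
    rw [h3, Finset.card_compl, Fintype.card_fin]

end Pool.Agent.H13.LD
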