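import Pool.Agent.H13.LD.Core

/-!
# Row Clo: closing a state

The state `(A, J, b, T)` satisfies all of the invariant except `safe`; instead every set `I` of open
clauses with `J.card + (nb A I).card ≤ 2 * t` can be satisfied outside `A` (`hM`).

PROOF. Let `𝓘` be the (finite) family of all `I ⊆ F` whose clauses are open w.r.t. `(A, b)`, with
`(nb A I).card ≤ I.card` and `J.card + (nb A I).card ≤ 2 * t`. It contains `∅` (`J.card < t`). Let
`I₀ ∈ 𝓘` have the largest cardinality (`Finset.exists_max_image` on `F.powerset.filter ..`), and put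
`N = nb A I₀`. So `N` is disjoint from `A`.
(0) By `hM` for `I₀` there is `b'` with `b' = b` on `A` and for every `C ∈ I₀` some `l ∈ C` with
`l.1 ∉ A` (hence `l.1 ∈ N`) and `b' l.1 = l.2`.
(1) `T` and `I₀` are disjoint: `C ∈ T` has `l ∈ C` with `l.1 ∈ J ⊆ A`, `b l.1 = l.2`, so it is not
open.
(2) `J.card + N.card < t`. Otherwise apply `hTyp` with `Qs' = insert (A \ J) Qs` (at most `P` sets,
each with at most `q₀` elements) and `J' = J ∪ N` (`J'.card = J.card + N.card ∈ [t, 2t]`). Every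
`C ∈ T` touches `J ⊆ J'` (`sat`) and is allowed for a member of `Qs'` (`allow`; `Allowed Q J a C`
is monotone in `J`). Every `C ∈ I₀` touches `N ⊆ J'` by (0), and `Allowed (A \ J) J' a C` holds: let
`l ∈ C`; if `l.1 ∉ A` then `l.1 ∈ N`; if `l.1 ∈ J` fine; if `l.1 ∈ A \ J` then `b l.1 ≠ l.2` (open)
and `b l.1 = a l.1` (`agree`). So the filter set of `Typ` contains `T ∪ I₀`, whose cardinality is
`T.card + I₀.card ≥ J.card + N.card = J'.card` by (1): contradiction.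
(3) The new state is `A₂ = A ∪ N`, `J₂ = J ∪ N`, `b₂ = b'`, `T₂ = T ∪ I₀`. `A₂ \ J₂ = A \ J`. All
fields except `safe` follow directly from (0), (1), (2).
(4) `safe`: let `I ⊆ F` be nonempty, open w.r.t. `(A₂, b')`, `J₂.card + (nb A₂ I).card ≤ 2 * t`, and
suppose `(nb A₂ I).card ≤ I.card`. The clauses of `I₀` are not open w.r.t. `(A₂, b')` by (0), so `I`
and `I₀` are disjoint; the clauses of `I` are open w.r.t. `(A, b)`; and
`nb A (I₀ ∪ I) ⊆ N ∪ nb A₂ I`. Hence `I₀ ∪ I ∈ 𝓘`, and it is larger than `I₀`: contradiction.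
-/

namespace Pool.Agent.H13.LD

open Finset

lemma Clo_allowed_mono {n : ℕ} {Q J J' : Finset (Fin n)} {a : Fin n → Bool} {C : Clause n}
    (h : Allowed Q J a C) (hJ : J ⊆ J') : Allowed Q J' a C := by
  intro l hl
  rcases h l hl with h1 | h1
  · exact Or.inl (hJ h1)
  · exact Or.inr h1

lemma Clo_mem_nb {n : ℕ} {A : Finset (Fin n)} {I : Finset (Clause n)} {C : Clause n} (hC : C ∈ I)
    {l : Lit n} (hl : l ∈ C) (hA : l.1 ∉ A) : l.1 ∈ nb A I := by
  rw [nb, mem_sdiff, mem_biUnion]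
  exact ⟨⟨C, hC, mem_image_of_mem _ hl⟩, hA⟩

theorem close_state {n : ℕ} {F : CNF n} {P q₀ t : ℕ} {a : Fin n → Bool} (hTyp : Typ F P q₀ t a)
    {Qs : Finset (Finset (Fin n))} {A J : Finset (Fin n)} {b : Fin n → Bool}
    {T : Finset (Clause n)} (hP : Qs.card + 1 ≤ P) (hQ : ∀ Q ∈ Qs, Q.card ≤ q₀)
    (hq : (A \ J).card ≤ q₀) (sub : J ⊆ A) (agree : ∀ x ∈ A, x ∉ J → b x = a x) (TF : T ⊆ F)
    (card : J.card ≤ T.card) (sat : ∀ C ∈ T, ∃ l ∈ C, l.1 ∈ J ∧ b l.1 = l.2)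
    (allow : ∀ C ∈ T, Allowed (A \ J) J a C ∨ ∃ Q ∈ Qs, Allowed Q J a C) (small : J.card < t)
    (hM : ∀ I ⊆ F, (∀ C ∈ I, Open A b C) → J.card + (nb A I).card ≤ 2 * t →
      ∃ b' : Fin n → Bool, (∀ x ∈ A, b' x = b x) ∧ ∀ C ∈ I, ∃ l ∈ C, l.1 ∉ A ∧ b' l.1 = l.2) :
    ∃ (A₂ J₂ : Finset (Fin n)) (b₂ : Fin n → Bool) (T₂ : Finset (Clause n)),
      Inv F a t Qs A₂ J₂ b₂ T₂ ∧ A ⊆ A₂ ∧ (∀ x ∈ A, b₂ x = b x) ∧ A₂ \ J₂ = A \ J := by
  classical
  obtain ⟨S, hS⟩ : ∃ S : Finset (Finset (Clause n)), S = F.powerset.filter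
      (fun I => (∀ C ∈ I, Open A b C) ∧ (nb A I).card ≤ I.card ∧
        J.card + (nb A I).card ≤ 2 * t) := ⟨_, rfl⟩
  have hmem : ∀ I : Finset (Clause n), I ∈ S ↔ I ⊆ F ∧ (∀ C ∈ I, Open A b C) ∧
      (nb A I).card ≤ I.card ∧ J.card + (nb A I).card ≤ 2 * t := by
    intro I
    rw [hS, mem_filter, mem_powerset]
  have hne : S.Nonempty := by
    refine ⟨∅, (hmem ∅).mpr ⟨empty_subset _, ?_, ?_, ?_⟩⟩
    · intro C hC
      exact absurd hC (notMem_empty _)
    · simp [nb]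
    · have : (nb A (∅ : Finset (Clause n))).card = 0 := by simp [nb]
      omega
  obtain ⟨I₀, hI₀, hmax⟩ := exists_max_image S Finset.card hne
  obtain ⟨hI₀F, hop, hc1, hc2⟩ := (hmem I₀).mp hI₀
  obtain ⟨b', hb1, hb2⟩ := hM I₀ hI₀F hop hc2
  obtain ⟨N, hN⟩ : ∃ N, N = nb A I₀ := ⟨_, rfl⟩
  rw [← hN] at hc1 hc2
  have hNA : ∀ x ∈ N, x ∉ A := fun x hx => (mem_sdiff.mp (hN ▸ hx : x ∈ nb A I₀)).2
  have hdis : Disjoint T I₀ := by
    rw [disjoint_left]
    intro C hT hI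
    obtain ⟨l, hl, hlJ, hbl⟩ := sat C hT
    exact hop C hI l hl (sub hlJ) hbl
  have hdJN : Disjoint J N := disjoint_left.mpr fun x hxJ hxN => hNA x hxN (sub hxJ)
  have hcJN : (J ∪ N).card = J.card + N.card := card_union_of_disjoint hdJN
  have hcTI : (T ∪ I₀).card = T.card + I₀.card := card_union_of_disjoint hdis
  have hallT : ∀ C ∈ T, Allowed (A \ J) (J ∪ N) a C ∨ ∃ Q ∈ Qs, Allowed Q (J ∪ N) a C := by
    intro C hC
    rcases allow C hC with h1 | ⟨Q, hQ1, hQ2⟩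
    · exact Or.inl (Clo_allowed_mono h1 subset_union_left)
    · exact Or.inr ⟨Q, hQ1, Clo_allowed_mono hQ2 subset_union_left⟩
  have hallI : ∀ C ∈ I₀, Allowed (A \ J) (J ∪ N) a C := by
    intro C hC l hl
    by_cases h1 : l.1 ∈ A
    · by_cases h2 : l.1 ∈ J
      · exact Or.inl (mem_union_left _ h2)
      · refine Or.inr ⟨mem_sdiff.mpr ⟨h1, h2⟩, ?_⟩
        rw [← agree _ h1 h2]
        exact hop C hC l hl h1
    · exact Or.inl (mem_union_right _ (hN ▸ Clo_mem_nb hC hl h1))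
  have hsatI : ∀ C ∈ I₀, ∃ l ∈ C, l.1 ∈ N ∧ b' l.1 = l.2 := by
    intro C hC
    obtain ⟨l, hl, hlA, hbl⟩ := hb2 C hC
    exact ⟨l, hl, hN ▸ Clo_mem_nb hC hl hlA, hbl⟩
  have hsmall : (J ∪ N).card < t := by
    by_contra hcon
    rw [not_lt] at hcon
    have h := hTyp (insert (A \ J) Qs) ((card_insert_le _ _).trans hP) (by
      intro Q hQ'
      rcases mem_insert.mp hQ' with h1 | h1
      · rw [h1]
        exact hq
      · exact hQ Q h1) (J ∪ N) hcon (by rw [hcJN]; exact hc2)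
    refine absurd h (not_lt.mpr ?_)
    calc (J ∪ N).card ≤ (T ∪ I₀).card := by rw [hcJN, hcTI]; omega
      _ ≤ _ := card_le_card fun C hC => ?_
    rw [mem_filter]
    rcases mem_union.mp hC with h1 | h1
    · refine ⟨TF h1, ?_, ?_⟩
      · obtain ⟨l, hl, hlJ, _⟩ := sat C h1
        exact ⟨l, hl, mem_union_left _ hlJ⟩
      · rcases hallT C h1 with h2 | ⟨Q, hQ1, hQ2⟩
        · exact ⟨_, mem_insert_self _ _, h2⟩
        · exact ⟨Q, mem_insert_of_mem hQ1, hQ2⟩
    · refine ⟨hI₀F h1, ?_, _, mem_insert_self _ _, hallI C h1⟩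
      obtain ⟨l, hl, hlN, _⟩ := hsatI C h1
      exact ⟨l, hl, mem_union_right _ hlN⟩
  have hAJ : (A ∪ N) \ (J ∪ N) = A \ J := by
    ext x
    simp only [mem_sdiff, mem_union, not_or]
    constructor
    · rintro ⟨h1 | h1, h2, h3⟩
      · exact ⟨h1, h2⟩
      · exact absurd h1 h3
    · rintro ⟨h1, h2⟩
      exact ⟨Or.inl h1, h2, fun h3 => hNA x h3 h1⟩
  refine ⟨A ∪ N, J ∪ N, b', T ∪ I₀, ?_, subset_union_left, hb1, hAJ⟩
  refine ⟨union_subset_union_left sub, ?_, union_subset TF hI₀F, ?_, ?_, ?_, hsmall, ?_⟩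
  · intro x hx hxJ
    have hxA : x ∈ A \ J := by
      rw [← hAJ]
      exact mem_sdiff.mpr ⟨hx, hxJ⟩
    rw [mem_sdiff] at hxA
    rw [hb1 x hxA.1]
    exact agree x hxA.1 hxA.2
  · rw [hcJN, hcTI]
    omega
  · intro C hC
    rcases mem_union.mp hC with h1 | h1
    · obtain ⟨l, hl, hlJ, hbl⟩ := sat C h1
      refine ⟨l, hl, mem_union_left _ hlJ, ?_⟩
      rw [hb1 _ (sub hlJ)]
      exact hbl
    · obtain ⟨l, hl, hlN, hbl⟩ := hsatI C h1
      exact ⟨l, hl, mem_union_right _ hlN, hbl⟩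
  · intro C hC
    rw [hAJ]
    rcases mem_union.mp hC with h1 | h1
    · exact hallT C h1
    · exact Or.inl (hallI C h1)
  · intro I hIF hIne hIop hIc
    by_contra hcon
    rw [not_lt] at hcon
    have hdII : Disjoint I₀ I := by
      rw [disjoint_left]
      intro C hC hC'
      obtain ⟨l, hl, hlN, hbl⟩ := hsatI C hC
      exact hIop C hC' l hl (mem_union_right _ hlN) hbl
    have hsubnb : nb A (I₀ ∪ I) ⊆ N ∪ nb (A ∪ N) I := by
      intro x hx
      rw [nb, mem_sdiff, mem_biUnion] at hx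
      obtain ⟨⟨C, hC, hxC⟩, hxA⟩ := hx
      by_cases hxN : x ∈ N
      · exact mem_union_left _ hxN
      · rcases mem_union.mp hC with h1 | h1
        · refine mem_union_left _ ?_
          rw [hN, nb, mem_sdiff, mem_biUnion]
          exact ⟨⟨C, h1, hxC⟩, hxA⟩
        · refine mem_union_right _ ?_
          rw [nb, mem_sdiff, mem_biUnion]
          refine ⟨⟨C, h1, hxC⟩, ?_⟩
          rw [mem_union, not_or]
          exact ⟨hxA, hxN⟩
    have hcn : (nb A (I₀ ∪ I)).card ≤ N.card + (nb (A ∪ N) I).card :=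
      (card_le_card hsubnb).trans (card_union_le _ _)
    have hcI : (I₀ ∪ I).card = I₀.card + I.card := card_union_of_disjoint hdII
    have hin : I₀ ∪ I ∈ S := by
      refine (hmem _).mpr ⟨union_subset hI₀F hIF, ?_, ?_, ?_⟩
      · intro C hC
        rcases mem_union.mp hC with h1 | h1
        · exact hop C h1
        · intro l hl hlA hbl
          refine hIop C h1 l hl (mem_union_left _ hlA) ?_
          rw [hb1 _ hlA]
          exact hbl
      · rw [hcI]
        omega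
      · rw [hcJN] at hIc
        omega
    have h1 := hmax _ hin
    have h2 : 0 < I.card := card_pos.mpr hIne
    rw [hcI] at h1
    omega

end Pool.Agent.H13.LD
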