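import Pool.Agent.H13.LD.Defs

/-!
# Core notions: open clauses, typical assignments, the invariant of the adversary
-/

namespace Pool.Agent.H13.LD

open Finset

/-- The variables of a clause. -/
def vars {n : ℕ} (C : Clause n) : Finset (Fin n) := C.image Prod.fst

/-- No literal of `C` on the assigned variables `A` is true. -/
def Open {n : ℕ} (A : Finset (Fin n)) (b : Fin n → Bool) (C : Clause n) : Prop :=
  ∀ l ∈ C, l.1 ∈ A → b l.1 ≠ l.2

/-- The variables of the clauses in `I` that are not in `A`. -/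
def nb {n : ℕ} (A : Finset (Fin n)) (I : Finset (Clause n)) : Finset (Fin n) :=
  I.biUnion vars \ A

/-- Every literal of `C` is on `J`, or it is on `Q` and false under `a`. -/
def Allowed {n : ℕ} (Q J : Finset (Fin n)) (a : Fin n → Bool) (C : Clause n) : Prop :=
  ∀ l ∈ C, l.1 ∈ J ∨ (l.1 ∈ Q ∧ a l.1 ≠ l.2)

/-- Some literal of `C` is on `J`. -/
def Touches {n : ℕ} (J : Finset (Fin n)) (C : Clause n) : Prop := ∃ l ∈ C, l.1 ∈ J

open Classical in
/-- The assignment `a` is typical for `F`. -/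
def Typ {n : ℕ} (F : CNF n) (P q₀ t : ℕ) (a : Fin n → Bool) : Prop :=
  ∀ Qs : Finset (Finset (Fin n)), Qs.card ≤ P → (∀ Q ∈ Qs, Q.card ≤ q₀) →
    ∀ J : Finset (Fin n), t ≤ J.card → J.card ≤ 2 * t →
      (F.filter fun C => Touches J C ∧ ∃ Q ∈ Qs, Allowed Q J a C).card < J.card

/-- Small sets of clauses have more variables than clauses. -/
def Spread {n : ℕ} (F : CNF n) (s : ℕ) : Prop :=
  ∀ I ⊆ F, I.Nonempty → (I.biUnion vars).card ≤ s → I.card < (I.biUnion vars).card

/-- The invariant of the adversary: `A` is the set of assigned variables, `b` their values; on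
`A \ J` these are the values of `a`; the set `J` is paid for by the clauses in `T`. The members of
`Qs` are the sets `A \ J` of the earlier phases. -/
structure Inv {n : ℕ} (F : CNF n) (a : Fin n → Bool) (t : ℕ) (Qs : Finset (Finset (Fin n)))
    (A J : Finset (Fin n)) (b : Fin n → Bool) (T : Finset (Clause n)) : Prop where
  sub : J ⊆ A
  agree : ∀ x ∈ A, x ∉ J → b x = a x
  TF : T ⊆ F
  card : J.card ≤ T.card
  sat : ∀ C ∈ T, ∃ l ∈ C, l.1 ∈ J ∧ b l.1 = l.2
  allow : ∀ C ∈ T, Allowed (A \ J) J a C ∨ ∃ Q ∈ Qs, Allowed Q J a C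
  small : J.card < t
  safe : ∀ I ⊆ F, I.Nonempty → (∀ C ∈ I, Open A b C) → J.card + (nb A I).card ≤ 2 * t →
    I.card < (nb A I).card

end Pool.Agent.H13.LD
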