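import Mathlib

/-!
# Definitions: CNF formulas, resolution refutations of bounded depth
-/

namespace Pool.Agent.H13.LD

open Finset

/-- A literal: a variable and the value that makes the literal true. -/
abbrev Lit (n : ℕ) := Fin n × Bool

/-- A clause is a finite set of literals. -/
abbrev Clause (n : ℕ) := Finset (Lit n)

/-- A CNF formula is a finite set of clauses. -/
abbrev CNF (n : ℕ) := Finset (Clause n)

/-- The assignment `a` satisfies the clause `C`. -/
def ClauseSat {n : ℕ} (a : Fin n → Bool) (C : Clause n) : Prop := ∃ l ∈ C, a l.1 = l.2

/-- The assignment `a` satisfies the formula `F`. -/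
def Sat {n : ℕ} (F : CNF n) (a : Fin n → Bool) : Prop := ∀ C ∈ F, ClauseSat a C

/-- The formula whose clauses are the `f i`, each of them given by `k` literals. -/
def cnf {n m k : ℕ} (f : Fin m → Fin k → Lit n) : CNF n := univ.image fun i => univ.image (f i)

/-- The clause `C` follows from at most `w` clauses of `F`. -/
def Implied {n : ℕ} (F : CNF n) (w : ℕ) (C : Clause n) : Prop :=
  ∃ G ⊆ F, G.card ≤ w ∧ ∀ a, Sat G a → ClauseSat a C

/-- A resolution refutation of `F`, of depth at most `d`: a directed acyclic graph of clauses. A
clause either follows from at most `w` clauses of `F`, or it is derived by resolution on a variable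
`x` (and weakening) from the clause `line (c true)`, in which `x` may occur negatively, and the
clause `line (c false)`, in which `x` may occur positively. The empty clause is derived. -/
structure Refutation {n : ℕ} (F : CNF n) (w d : ℕ) where
  /-- the number of clauses of the refutation -/
  size : ℕ
  /-- the clauses -/
  line : Fin size → Clause n
  /-- `none` if the clause is not derived by resolution -/
  node : Fin size → Option (Fin n × (Bool → Fin size))
  /-- a bound for the length of the paths that end in the given clause -/
  height : Fin size → ℕ
  /-- the last clause -/
  root : Fin size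
  root_line : line root = ∅
  root_height : height root ≤ d
  leaf : ∀ i, node i = none → Implied F w (line i)
  inner : ∀ i x c, node i = some (x, c) → ∀ β,
    line (c β) ⊆ insert (x, !β) (line i) ∧ height (c β) < height i

/-- The formula `F` is unsatisfiable, and its refutations of depth at most `d` have at least `s`
clauses. -/
def Hard {n : ℕ} (F : CNF n) (w d : ℕ) (s : ℝ) : Prop :=
  (¬ ∃ a, Sat F a) ∧ ∀ R : Refutation F w d, s ≤ R.size

end Pool.Agent.H13.LD
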