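import Pool.Agent.H13.LD.Core

/-!
# Row Hal: open clauses with Hall's condition can be satisfied outside `A`

PROOF. Apply Hall's marriage theorem
`Finset.all_card_le_biUnion_card_iff_exists_injective` with index type `ι = {C // C ∈ I}` and
`t C = vars C.1 \ A`: for a finset `s` of `ι` put `I' = s.image Subtype.val ⊆ I`, then
`s.card = I'.card ≤ (nb A I').card` and `nb A I' = s.biUnion t` (unfold `nb`, `Finset.mem_biUnion`).
This gives an injective `f` with `f C ∈ vars C.1`, `f C ∉ A`. For every `C ∈ I` choose a literal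
`l C ∈ C` with `(l C).1 = f C`. Put `b' x = (l C).2` if `x = f C` for some (unique) `C ∈ I`, else
`b' x = b x`. As `f C ∉ A` for all `C`, `b'` agrees with `b` on `A`; and `b' (l C).1 = (l C).2`.
-/

namespace Pool.Agent.H13.LD

open Finset

theorem match_ext {n : ℕ} (A : Finset (Fin n)) (b : Fin n → Bool) (I : Finset (Clause n))
    (h : ∀ I' ⊆ I, I'.card ≤ (nb A I').card) :
    ∃ b' : Fin n → Bool, (∀ x ∈ A, b' x = b x) ∧
      ∀ C ∈ I, ∃ l ∈ C, l.1 ∉ A ∧ b' l.1 = l.2 := by
  classical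
  let t : {C // C ∈ I} → Finset (Fin n) := fun C => vars C.1 \ A
  have hall : ∀ s : Finset {C // C ∈ I}, s.card ≤ (s.biUnion t).card := by
    intro s
    have hsub : s.image Subtype.val ⊆ I := by
      intro C hC
      rcases Finset.mem_image.1 hC with ⟨x, _, rfl⟩
      exact x.2
    have h1 := h _ hsub
    have h2 : (s.image Subtype.val).card = s.card :=
      Finset.card_image_of_injective _ Subtype.val_injective
    have h3 : nb A (s.image Subtype.val) = s.biUnion t := by
      ext x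
      simp only [nb, Finset.mem_sdiff, Finset.mem_biUnion, Finset.mem_image, t]
      constructor
      · rintro ⟨⟨C, ⟨y, hy, rfl⟩, hx⟩, hA⟩
        exact ⟨y, hy, hx, hA⟩
      · rintro ⟨y, hy, hx, hA⟩
        exact ⟨⟨y.1, ⟨y, hy, rfl⟩, hx⟩, hA⟩
    rw [h2, h3] at h1
    exact h1
  obtain ⟨f, hinj, hf⟩ := (Finset.all_card_le_biUnion_card_iff_exists_injective t).1 hall
  have hlit : ∀ C : {C // C ∈ I}, ∃ l ∈ C.1, l.1 = f C := by
    intro C
    have h1 : f C ∈ vars C.1 := (Finset.mem_sdiff.1 (hf C)).1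
    rcases Finset.mem_image.1 h1 with ⟨l, hl, hl2⟩
    exact ⟨l, hl, hl2⟩
  choose l hlC hlf using hlit
  refine ⟨fun x => if hx : ∃ C, f C = x then (l hx.choose).2 else b x, ?_, ?_⟩
  · intro x hx
    have : ¬ ∃ C, f C = x := by
      rintro ⟨C, rfl⟩
      exact (Finset.mem_sdiff.1 (hf C)).2 hx
    simp only [this, dite_false]
  · intro C hC
    refine ⟨l ⟨C, hC⟩, hlC ⟨C, hC⟩, ?_, ?_⟩
    · rw [hlf]
      exact (Finset.mem_sdiff.1 (hf ⟨C, hC⟩)).2
    · have hx : ∃ C', f C' = (l ⟨C, hC⟩).1 := ⟨⟨C, hC⟩, (hlf ⟨C, hC⟩).symm⟩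
      have he : hx.choose = ⟨C, hC⟩ := hinj (hx.choose_spec.trans (hlf ⟨C, hC⟩))
      simp only [hx, dite_true]
      rw [he]

end Pool.Agent.H13.LD
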