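import Pool.Agent.H13.LD.Hal

/-!
# Row Lf: a falsified clause does not follow from few clauses of `F`

PROOF. Let `G ⊆ F`, `G.card ≤ w`, `Sat G a' → ClauseSat a' C`. Let `I` be the set of the clauses of
`G` that are open w.r.t. `(A, b)`. For `I' ⊆ I`: `nb A I' ⊆ I'.biUnion vars` has at most
`I'.card * k ≤ w * k ≤ t` elements (`(vars D).card ≤ D.card ≤ k`), so
`J.card + (nb A I').card ≤ 2 * t` (`J.card < t`), and `safe` gives `I'.card ≤ (nb A I').card` (the case
`I' = ∅` is trivial). By `match_ext A b I` there is `b'` with `b' = b` on `A` satisfying all clauses of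
`I`. The other clauses `D` of `G` are not open: some `l ∈ D` has `l.1 ∈ A` and `b l.1 = l.2`, so
`b' l.1 = l.2`. So `Sat G b'`, hence `ClauseSat b' C`: some `l ∈ C` has `b' l.1 = l.2`. But `l.1 ∈ A`
and `b' l.1 = b l.1 ≠ l.2`.
-/

namespace Pool.Agent.H13.LD

open Finset

theorem leaf_false {n : ℕ} {F : CNF n} {k w t : ℕ} {a : Fin n → Bool}
    {Qs : Finset (Finset (Fin n))} {A J : Finset (Fin n)} {b : Fin n → Bool}
    {T : Finset (Clause n)} (hI : Inv F a t Qs A J b T) (hk : ∀ C ∈ F, C.card ≤ k)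
    (hw : w * k ≤ t) {C : Clause n} (hC : ∀ l ∈ C, l.1 ∈ A ∧ b l.1 ≠ l.2) (h : Implied F w C) :
    False := by
  classical
  obtain ⟨G, hGF, hGw, hG⟩ := h
  have hIsub : G.filter (fun D => Open A b D) ⊆ G := filter_subset _ _
  obtain ⟨b', hb1, hb2⟩ := match_ext A b (G.filter (fun D => Open A b D)) (by
    intro I' hI'
    rcases I'.eq_empty_or_nonempty with he | hne
    · rw [he]
      simp
    · have hI'G : I' ⊆ G := hI'.trans hIsub
      have h1 : (nb A I').card ≤ I'.card * k := by
        refine (card_le_card sdiff_subset).trans ?_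
        exact card_biUnion_le_card_mul I' vars k fun D hD =>
          card_image_le.trans (hk D (hGF (hI'G hD)))
      have h2 : I'.card * k ≤ w * k :=
        Nat.mul_le_mul_right k ((card_le_card hI'G).trans hGw)
      have h3 := hI.small
      have h4 := hI.safe I' (hI'G.trans hGF) hne
        (fun D hD => (mem_filter.1 (hI' hD)).2) (by omega)
      exact h4.le)
  have hsat : Sat G b' := by
    intro D hD
    by_cases ho : Open A b D
    · obtain ⟨l, hl, -, hl2⟩ := hb2 D (mem_filter.2 ⟨hD, ho⟩)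
      exact ⟨l, hl, hl2⟩
    · unfold Open at ho
      push Not at ho
      obtain ⟨l, hl, hlA, hlb⟩ := ho
      exact ⟨l, hl, by rw [hb1 _ hlA, hlb]⟩
  obtain ⟨l, hl, hlb⟩ := hG b' hsat
  obtain ⟨hlA, hne⟩ := hC l hl
  exact hne (by rw [← hb1 _ hlA, hlb])

end Pool.Agent.H13.LD
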