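import Mathlib

/-!
# Row Lm: limits

PROOF. With `t = ⌊τ n⌋₊ ≥ τ n / 2 ≥ 1` for `n ≥ 2 / τ`: `exp t ≥ t^2 / 2` (or `Real.quadratic_le_exp_of_nonneg`),
so `(t + 1) exp (-t) ≤ 2 (t + 1) / t^2 ≤ 4 / t ≤ 8 / (τ n)`. And
`2^n exp (-n) = exp (-(1 - log 2) n) ≤ 1 / ((1 - log 2) n) ≤ 1 / (0.3 n)` (`exp y ≥ y`,
`Real.log_two_lt_d9`). So the sum is at most `(16 / τ + 1 + 4) / n`. For the second theorem the same.
(Or use `Filter.Tendsto` and `tendsto_floor`.)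
-/

namespace Pool.Agent.H13.LD

open Filter Topology

theorem Lm_two : Tendsto (fun n : ℕ => (2 : ℝ) ^ n * Real.exp (-n)) atTop (𝓝 0) := by
  have h1 : (2 : ℝ) * Real.exp (-1) < 1 := by
    have h := Real.exp_one_gt_d9
    rw [Real.exp_neg, ← div_eq_mul_inv, div_lt_one (Real.exp_pos 1)]
    linarith
  have h2 := tendsto_pow_atTop_nhds_zero_of_lt_one (r := (2 : ℝ) * Real.exp (-1)) (by positivity) h1
  refine h2.congr fun n => ?_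
  rw [mul_pow, ← Real.exp_nat_mul, mul_neg_one]

theorem lim_bounds {τ η : ℝ} (hτ : 0 < τ) (hη : 0 < η) : ∃ n₀ : ℕ, ∀ n : ℕ, n₀ ≤ n →
    2 * ((⌊τ * n⌋₊ + 1 : ℝ) * Real.exp (-(⌊τ * n⌋₊ : ℝ))) + 1 / n +
      2 ^ n * Real.exp (-n) ≤ η := by
  have h1 : Tendsto (fun x : ℝ => (x + 1) * Real.exp (-x)) atTop (𝓝 0) := by
    have h2 := (Real.tendsto_pow_mul_exp_neg_atTop_nhds_zero 1).add
      (Real.tendsto_pow_mul_exp_neg_atTop_nhds_zero 0)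
    rw [add_zero] at h2
    refine h2.congr fun x => ?_
    ring
  have h3 : Tendsto (fun n : ℕ => ((⌊τ * n⌋₊ : ℕ) : ℝ)) atTop atTop :=
    tendsto_natCast_atTop_atTop.comp (tendsto_nat_floor_atTop.comp
      (tendsto_natCast_atTop_atTop.const_mul_atTop hτ))
  have h4 : Tendsto (fun n : ℕ => 2 * ((⌊τ * n⌋₊ + 1 : ℝ) * Real.exp (-(⌊τ * n⌋₊ : ℝ))) + 1 / n +
      2 ^ n * Real.exp (-n)) atTop (𝓝 (2 * 0 + 0 + 0)) :=
    (((h1.comp h3).const_mul 2).add tendsto_one_div_atTop_nhds_zero_nat).add Lm_two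
  rw [mul_zero, add_zero, add_zero] at h4
  obtain ⟨n₀, h⟩ := eventually_atTop.1 (h4.eventually (ge_mem_nhds hη))
  exact ⟨n₀, h⟩

theorem lim_unsat {η : ℝ} (hη : 0 < η) : ∃ n₀ : ℕ, ∀ n : ℕ, n₀ ≤ n →
    2 ^ n * Real.exp (-n) ≤ η := by
  obtain ⟨n₀, h⟩ := eventually_atTop.1 (Lm_two.eventually (ge_mem_nhds hη))
  exact ⟨n₀, h⟩

end Pool.Agent.H13.LD
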