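import Mathlib

/-!
# Row Pa: the main inequality between the parameters

PROOF. Write `ℓ = log k ≥ log 6 ≥ 1.79`. `x ≥ τ / 2 ≥ 50 ℓ / k`, so `exp 1 / x ≤ e k / (50 ℓ) ≤ k` and
`log (exp 1 / x) ≤ ℓ`; so the first term is at most `9 P ℓ`. `r / (8 τ) ≤ τ k / (80000 ℓ)` by `h2`
(`r ≤ τ² k / (10000 ℓ)`), so `P ≤ 3 + k / 80000 ≤ k` (`τ ≤ 1 ≤ ℓ`), and
`log (2 e P k) + 1 ≤ log 2 + 1 + 2 ℓ + 1 ≤ 4 ℓ ≤ 4 P ℓ` (`2.7 ≤ 2 * 1.79`). Together at most
`13 P ℓ ≤ 39 ℓ + 13 r ℓ / (8 τ) ≤ 0.39 τ k + 13 τ k / 80000 ≤ 0.4 τ k` (by `h1`, `h2`), while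
`4 x (k - 1) ≥ 2 τ (k - 1) ≥ (5/3) τ k`.
(Bounds for `log 6`: `Real.log_two_gt_d9`, `log 6 = log 2 + log 3`, `3 ≥ 2^(3/2)`, or
`exp 1.7 < 6` via `Real.exp_one_lt_d9`; `1.6 ≤ log 6` is also enough with small changes.)
-/

namespace Pool.Agent.H13.LD

theorem cond_h {k P : ℕ} {r τ x : ℝ} (hk : 6 ≤ k) (hr : 0 ≤ r) (h1 : 100 * (Real.log k / k) ≤ τ)
    (h2 : 10000 * (r * Real.log k / k) ≤ τ ^ 2) (h3 : τ ≤ 1) (hP1 : 1 ≤ P)
    (hP : (P : ℝ) ≤ r / (8 * τ) + 3) (hx : τ / 2 ≤ x) :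
    (8 * P + 1 : ℝ) * Real.log (Real.exp 1 / x) + Real.log (2 * Real.exp 1 * P * k) + 1 ≤
      4 * x * (k - 1) := by
  obtain ⟨K, hK⟩ : ∃ K : ℝ, K = (k : ℝ) := ⟨_, rfl⟩
  obtain ⟨Q, hQ⟩ : ∃ Q : ℝ, Q = (P : ℝ) := ⟨_, rfl⟩
  have hK6 : 6 ≤ K := by
    rw [hK]
    exact_mod_cast hk
  have hQ1 : 1 ≤ Q := by
    rw [hQ]
    exact_mod_cast hP1
  rw [← hK] at h1 h2 ⊢
  rw [← hQ] at hP ⊢
  have hK0 : 0 < K := by linarith
  obtain ⟨l, hl⟩ : ∃ l : ℝ, l = Real.log K := ⟨_, rfl⟩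
  rw [← hl] at h1 h2
  have hl2 : 1.38 ≤ l := by
    have e1 : Real.log 4 ≤ Real.log K := Real.log_le_log (by norm_num) (by linarith)
    have e2 : Real.log 4 = 2 * Real.log 2 := by
      rw [show (4 : ℝ) = 2 ^ 2 by norm_num, Real.log_pow]
      norm_num
    have e3 := Real.log_two_gt_d9
    rw [hl]
    norm_num at e3 ⊢
    linarith
  have hlog2 : Real.log 2 ≤ 0.7 := by
    have := Real.log_two_lt_d9
    norm_num at this ⊢
    linarith
  have hl0 : 0 < l := by linarith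
  have h1' : 100 * l ≤ τ * K := by
    have e1 : 100 * (l / K) * K = 100 * l := by
      field_simp
    have e2 := mul_le_mul_of_nonneg_right h1 hK0.le
    linarith
  have hτ : 0 < τ := by
    by_contra hcon
    rw [not_lt] at hcon
    have := mul_nonpos_of_nonpos_of_nonneg hcon hK0.le
    linarith
  have h2' : 10000 * (r * l) ≤ τ ^ 2 * K := by
    have e1 : 10000 * (r * l / K) * K = 10000 * (r * l) := by
      field_simp
    have e2 := mul_le_mul_of_nonneg_right h2 hK0.le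
    linarith
  have hx0 : 0 < x := by linarith
  have hrl : r * l / (8 * τ) ≤ τ * K / 80000 := by
    rw [div_le_iff₀ (by positivity)]
    have e1 : τ * K / 80000 * (8 * τ) = τ ^ 2 * K / 10000 := by ring
    rw [e1]
    linarith
  have hrr : r / (8 * τ) ≤ K / 80000 := by
    have e1 : r / (8 * τ) ≤ r * l / (8 * τ) := by
      refine div_le_div_of_nonneg_right ?_ (by positivity)
      have := mul_le_mul_of_nonneg_left (by linarith : (1 : ℝ) ≤ l) hr
      linarith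
    have e2 : τ * K / 80000 ≤ K / 80000 := by
      refine div_le_div_of_nonneg_right ?_ (by norm_num)
      have := mul_le_mul_of_nonneg_right h3 hK0.le
      linarith
    linarith
  have hQK : Q ≤ K := by linarith
  -- first term
  have hex : Real.exp 1 / x ≤ K := by
    rw [div_le_iff₀ hx0]
    have e1 := mul_le_mul_of_nonneg_left hx hK0.le
    have e2 := Real.exp_one_lt_d9
    norm_num at e2
    have e3 : K * (τ / 2) = τ * K / 2 := by ring
    linarith
  have ht1 : Real.log (Real.exp 1 / x) ≤ l := by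
    rw [hl]
    exact Real.log_le_log (by positivity) hex
  have ht1' : (8 * Q + 1) * Real.log (Real.exp 1 / x) ≤ 9 * Q * l := by
    have e1 := mul_le_mul_of_nonneg_left ht1 (by linarith : (0 : ℝ) ≤ 8 * Q + 1)
    have e2 := mul_le_mul_of_nonneg_right hQ1 hl0.le
    linarith
  -- second term
  have ht2 : Real.log (2 * Real.exp 1 * Q * K) ≤ 0.7 + 1 + l + l := by
    have e0 : 0 < Real.exp 1 := Real.exp_pos 1
    rw [Real.log_mul (by positivity) (by positivity), Real.log_mul (by positivity) (by positivity),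
      Real.log_mul (by norm_num) (by positivity), Real.log_exp, ← hl]
    have e1 : Real.log Q ≤ l := by
      rw [hl]
      exact Real.log_le_log (by linarith) hQK
    linarith
  have ht2' : Real.log (2 * Real.exp 1 * Q * K) + 1 ≤ 4 * Q * l := by
    have e2 := mul_le_mul_of_nonneg_right hQ1 hl0.le
    linarith
  have hsum : 13 * Q * l ≤ 0.4 * (τ * K) := by
    have e1 := mul_le_mul_of_nonneg_right hP hl0.le
    have e2 : (r / (8 * τ) + 3) * l = r * l / (8 * τ) + 3 * l := by ring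
    rw [e2] at e1
    have e3 : 0 < τ * K := by positivity
    linarith
  have hfin : 5 / 3 * (τ * K) ≤ 4 * x * (K - 1) := by
    have e1 : 2 * τ * (K - 1) ≤ 4 * x * (K - 1) :=
      mul_le_mul_of_nonneg_right (by linarith) (by linarith)
    have e2 : τ * 6 ≤ τ * K := mul_le_mul_of_nonneg_left hK6 hτ.le
    linarith
  have e3 : 0 < τ * K := by positivity
  linarith

end Pool.Agent.H13.LD
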