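import Mathlib

/-!
# Row Pb: the parameters for large `n`

PROOF. `n₀ = ⌈4 / τ⌉₊`. So `τ n ≥ 4` and `t = ⌊τ n⌋₊ ≥ τ n - 1 ≥ τ n / 2` and `t ≥ 3`, `t ≤ τ n`,
`24 t ≤ 24 τ n ≤ n`. Depth: as real numbers `⌊(1+r) n⌋₊ ≤ (1+r) n`, and
`(n - 8 t) + (P - 1) * (16 t) = n + (16 P - 24) t` (`8 t ≤ n`, `1 ≤ P`), where
`16 P - 24 ≥ 2 r / τ + 8 ≥ 0`, so `(16 P - 24) t ≥ (2 r / τ + 8) (τ n / 2) = r n + 4 τ n > r n`.
Last: `⌊τ/(2k) n⌋₊ * k ≤ τ / (2k) * n * k = τ n / 2 ≤ t`.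
-/

namespace Pool.Agent.H13.LD

theorem large_n {k P : ℕ} {r τ : ℝ} (hk : 1 ≤ k) (hτ : 0 < τ) (hτ2 : 24 * τ ≤ 1) (hr : 0 ≤ r)
    (hP : r / (8 * τ) + 2 ≤ P) : ∃ n₀ : ℕ, ∀ n : ℕ, n₀ ≤ n →
      3 ≤ ⌊τ * n⌋₊ ∧ 24 * ⌊τ * n⌋₊ ≤ n ∧ τ * n / 2 ≤ ⌊τ * n⌋₊ ∧
      ⌊(1 + r) * n⌋₊ < (n - 8 * ⌊τ * n⌋₊) + (P - 1) * (16 * ⌊τ * n⌋₊) ∧
      ⌊τ / (2 * k) * n⌋₊ * k ≤ ⌊τ * n⌋₊ := by
  refine ⟨⌈4 / τ⌉₊, fun n hn => ?_⟩
  have hn1 : 4 / τ ≤ (n : ℝ) := (Nat.le_ceil _).trans (by exact_mod_cast hn)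
  have hτn : 4 ≤ τ * n := by
    rw [div_le_iff₀ hτ] at hn1
    linarith
  have hn0 : (0 : ℝ) ≤ n := Nat.cast_nonneg n
  have ht1 : (⌊τ * n⌋₊ : ℝ) ≤ τ * n := Nat.floor_le (by positivity)
  have ht2 : τ * n < (⌊τ * n⌋₊ : ℝ) + 1 := Nat.lt_floor_add_one _
  have h24 : 24 * ⌊τ * n⌋₊ ≤ n := by
    have : (24 : ℝ) * (⌊τ * n⌋₊ : ℝ) ≤ n := by
      have h1 : 24 * τ * n ≤ 1 * n := mul_le_mul_of_nonneg_right hτ2 hn0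
      linarith
    exact_mod_cast this
  have hhalf : τ * n / 2 ≤ (⌊τ * n⌋₊ : ℝ) := by linarith
  have hP2 : (2 : ℝ) ≤ P := by
    have : 0 ≤ r / (8 * τ) := by positivity
    linarith
  have hP1 : 1 ≤ P := by
    have : (1 : ℝ) ≤ P := by linarith
    exact_mod_cast this
  refine ⟨Nat.le_floor (by push_cast; linarith), h24, hhalf, ?_, ?_⟩
  · have h8 : 8 * ⌊τ * n⌋₊ ≤ n := by omega
    have hreal : (⌊(1 + r) * n⌋₊ : ℝ) <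
        (((n - 8 * ⌊τ * n⌋₊) + (P - 1) * (16 * ⌊τ * n⌋₊) : ℕ) : ℝ) := by
      rw [Nat.cast_add, Nat.cast_sub h8, Nat.cast_mul (P - 1), Nat.cast_sub hP1]
      push_cast
      have h1 : (⌊(1 + r) * n⌋₊ : ℝ) ≤ (1 + r) * n := Nat.floor_le (by positivity)
      have h2 : 2 * r / τ + 8 ≤ 16 * (P : ℝ) - 24 := by
        have e : 2 * r / τ = 16 * (r / (8 * τ)) := by
          field_simp
          ring
        rw [e]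
        linarith
      have h3 : 0 ≤ 2 * r / τ + 8 := by positivity
      have h4 : (2 * r / τ + 8) * (τ * n / 2) ≤ (16 * (P : ℝ) - 24) * (⌊τ * n⌋₊ : ℝ) :=
        mul_le_mul h2 hhalf (by positivity) (h3.trans h2)
      have h5 : (2 * r / τ + 8) * (τ * n / 2) = r * n + 4 * (τ * n) := by
        field_simp
        ring
      nlinarith
    exact_mod_cast hreal
  · have hkr : (1 : ℝ) ≤ k := by exact_mod_cast hk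
    have h1 : (⌊τ / (2 * k) * n⌋₊ : ℝ) ≤ τ / (2 * k) * n := Nat.floor_le (by positivity)
    have h2 : (⌊τ / (2 * k) * n⌋₊ : ℝ) * k ≤ (⌊τ * n⌋₊ : ℝ) := by
      calc (⌊τ / (2 * k) * n⌋₊ : ℝ) * k ≤ (τ / (2 * k) * n) * k :=
            mul_le_mul_of_nonneg_right h1 (by linarith)
        _ = τ * n / 2 := by field_simp
        _ ≤ _ := hhalf
    exact_mod_cast h2

end Pool.Agent.H13.LD
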