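import Mathlib

/-!
# Row Pc: the final exponent, and a sum of binomial coefficients

PROOF of `final_exp`. Write `ℓ = log k ≥ 1.79` (as in row Pa; `ℓ ≥ 1.6` is enough).
`e n / t ≤ 2 e / τ ≤ 2 e k / (100 ℓ) ≤ k`, so `log (e n / t) ≤ ℓ`; `1 / log 2 ≤ 1.45`; so the third term
is at most `1.45 τ n ℓ`; `24 t ≤ 24 τ n ≤ (24 / 1.6) τ n ℓ = 15 τ n ℓ`; `1 ≤ t ≤ τ n ≤ τ n ℓ`. The sum is
at most `18 τ n ℓ`.
PROOF of `sum_choose_le`. With `x = t / n ∈ (0, 1]`:
`∑_{i ≤ t} C(n, i) ≤ x^(-t) ∑_{i ≤ n} C(n, i) x^i = x^(-t) (1 + x)^n ≤ (n / t)^t exp (x n) = (e n / t)^t`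
(`x^i ≥ x^t` for `i ≤ t`; `add_pow`; `1 + x ≤ exp x`), and `(e n / t)^t = exp (t log (e n / t))`.
-/

namespace Pool.Agent.H13.LD

open Finset

theorem final_exp {k n t : ℕ} {τ : ℝ} (hk : 6 ≤ k) (h1 : 100 * (Real.log k / k) ≤ τ) (ht : 1 ≤ t)
    (ht1 : τ * n / 2 ≤ t) (ht2 : (t : ℝ) ≤ τ * n) :
    1 + 24 * t + t * Real.log (Real.exp 1 * n / t) / Real.log 2 ≤ 27 * τ * Real.log k * n := by
  have hk' : (6 : ℝ) ≤ (k : ℝ) := by exact_mod_cast hk
  have hk0 : (0 : ℝ) < k := by linarith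
  have ht' : (1 : ℝ) ≤ (t : ℝ) := by exact_mod_cast ht
  have ht0 : (0 : ℝ) < t := by linarith
  have he : Real.exp 1 < 2.7182818286 := Real.exp_one_lt_d9
  have hl2 : 0.6931471803 < Real.log 2 := Real.log_two_gt_d9
  have hl20 : 0 < Real.log 2 := by linarith
  have hl3 : 1 ≤ Real.log 3 := by
    rw [Real.le_log_iff_exp_le (by norm_num)]
    linarith
  have hl6 : 1.69 ≤ Real.log k := by
    have e1 : Real.log 6 = Real.log 2 + Real.log 3 := by
      rw [← Real.log_mul (by norm_num) (by norm_num)]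
      norm_num
    have e2 : Real.log 6 ≤ Real.log k := Real.log_le_log (by norm_num) hk'
    linarith
  obtain ⟨l, hl⟩ : ∃ l : ℝ, l = Real.log k := ⟨_, rfl⟩
  rw [← hl] at hl6 h1 ⊢
  have hτk : 100 * l ≤ τ * k := by
    have h2 := mul_le_mul_of_nonneg_right h1 hk0.le
    have e1 : 100 * (l / k) * k = 100 * l := by field_simp
    linarith
  have hn0 : (0 : ℝ) ≤ (n : ℝ) := Nat.cast_nonneg n
  have hen : Real.exp 1 * n ≤ k * t := by
    have h2 : (k : ℝ) * (τ * n / 2) ≤ k * t := mul_le_mul_of_nonneg_left ht1 hk0.le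
    have h3 : 100 * l * n ≤ τ * k * n := mul_le_mul_of_nonneg_right hτk hn0
    have h4 : Real.exp 1 * n ≤ 50 * l * n := mul_le_mul_of_nonneg_right (by linarith) hn0
    nlinarith
  have hnpos : (0 : ℝ) < n := by
    rcases hn0.lt_or_eq with h | h
    · exact h
    · rw [← h, mul_zero] at ht2
      linarith
  have hlog : Real.log (Real.exp 1 * n / t) ≤ l := by
    rw [hl]
    apply Real.log_le_log (by positivity)
    rw [div_le_iff₀ ht0]
    exact hen
  have h3 : t * Real.log (Real.exp 1 * n / t) / Real.log 2 ≤ 1.45 * (t * l) := by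
    rw [div_le_iff₀ hl20]
    have h4 : t * Real.log (Real.exp 1 * n / t) ≤ t * l := mul_le_mul_of_nonneg_left hlog ht0.le
    have h5 : 0 ≤ (t : ℝ) * l := by positivity
    nlinarith
  have h4 : (t : ℝ) * l ≤ τ * n * l := mul_le_mul_of_nonneg_right ht2 (by linarith)
  have h5 : 1.69 * (t : ℝ) ≤ l * t := mul_le_mul_of_nonneg_right hl6 ht0.le
  have e : 27 * τ * l * n = 27 * (τ * n * l) := by ring
  rw [e]
  nlinarith

theorem sum_choose_le {n t : ℕ} (ht : 1 ≤ t) (htn : t ≤ n) :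
    ((∑ i ∈ range (t + 1), n.choose i : ℕ) : ℝ) ≤
      Real.exp (t * Real.log (Real.exp 1 * n / t)) := by
  have ht0 : (0 : ℝ) < t := by exact_mod_cast ht
  have hn0 : (0 : ℝ) < n := by exact_mod_cast (lt_of_lt_of_le ht htn)
  have htn' : (t : ℝ) ≤ n := by exact_mod_cast htn
  obtain ⟨x, hx⟩ : ∃ x : ℝ, x = t / n := ⟨_, rfl⟩
  have hx0 : 0 < x := by rw [hx]; positivity
  have hx1 : x ≤ 1 := by rw [hx, div_le_one hn0]; exact htn'
  have hxt : 0 < x ^ t := pow_pos hx0 t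
  have h1 : x ^ t * ((∑ i ∈ range (t + 1), n.choose i : ℕ) : ℝ) ≤ (1 + x) ^ n := by
    rw [Nat.cast_sum, Finset.mul_sum, add_comm 1 x, add_pow]
    have h2 : ∀ i ∈ range (t + 1), x ^ t * (n.choose i : ℝ) ≤ x ^ i * 1 ^ (n - i) * (n.choose i : ℝ) := by
      intro i hi
      have hi' : i ≤ t := Nat.lt_succ_iff.1 (Finset.mem_range.1 hi)
      rw [one_pow, mul_one]
      exact mul_le_mul_of_nonneg_right (pow_le_pow_of_le_one hx0.le hx1 hi') (Nat.cast_nonneg _)
    refine (Finset.sum_le_sum h2).trans ?_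
    refine Finset.sum_le_sum_of_subset_of_nonneg ?_ ?_
    · intro i hi
      rw [Finset.mem_range] at hi ⊢
      omega
    · intro i _ _
      positivity
  have h2 : (1 + x) ^ n ≤ Real.exp t := by
    have h3 : 1 + x ≤ Real.exp x := by
      have := Real.add_one_le_exp x
      linarith
    have h4 : (1 + x) ^ n ≤ Real.exp x ^ n := pow_le_pow_left₀ (by linarith) h3 n
    rw [← Real.exp_nat_mul] at h4
    have e : (n : ℝ) * x = t := by rw [hx]; field_simp
    rwa [e] at h4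
  have h3 : Real.exp (t * Real.log (Real.exp 1 * n / t)) = Real.exp t / x ^ t := by
    have e1 : Real.exp 1 * n / t = Real.exp 1 / x := by
      rw [hx]
      field_simp
    rw [e1, Real.log_div (Real.exp_pos 1).ne' hx0.ne', Real.log_exp, mul_sub, mul_one, Real.exp_sub]
    congr 1
    rw [Real.exp_nat_mul, Real.exp_log hx0]
  rw [h3, le_div_iff₀ hxt, mul_comm]
  exact h1.trans h2

end Pool.Agent.H13.LD
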