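import Mathlib

/-!
# Row Sn: estimate for the union bound of row Su

PROOF. Put `m = 2 ^ k * n`. For `v ∈ Icc 1 s` (`2 * v ≤ 2 * s ≤ n / 6`; `v ≤ m`), the `v`-th term
divided by `((2n)^k)^m` is `C(n, v) C(m, v) (v / n)^(k v)`. With `C(N, v) ≤ (e N / v)^v` it is at most
`((e n / v) (e 2^k n / v) (v/n)^k)^v = (4 e^2 (2v/n)^(k-2))^v` (`2^k (v/n)^(k-2) = 4 (2v/n)^(k-2)`). As
`k ≥ 6` and `2v/n ≤ 1/6`: `4 e^2 (2v/n)^(k-2) ≤ 4 e^2 (2v/n)^4 ≤ 4 e^2 (1/6)^3 (2v/n) ≤ v / (3 n)`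
(`e^2 < 7.4`: `8 * 7.4 / 216 < 1/3`). So the term is at most
`(v/(3n))^v ≤ (v/(3n)) * (1/36)^(v-1)` (`v/(3n) ≤ 1/36`), and
`v * (1/36)^(v-1) ≤ (1/2)^(v-1)` (`v ≤ 18^(v-1)`), so the sum is at most
`(1/(3n)) * ∑ (1/2)^(v-1) ≤ 2/(3n) ≤ 1/n`.
-/

namespace Pool.Agent.H13.LD

open Finset

theorem Sn_choose (N v : ℕ) (hv : 1 ≤ v) :
    ((N.choose v : ℕ) : ℝ) ≤ (Real.exp 1 * N / v) ^ v := by
  have hv0 : (0 : ℝ) < v := Nat.cast_pos.2 hv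
  have hf : (0 : ℝ) < (v.factorial : ℝ) := Nat.cast_pos.2 (Nat.factorial_pos v)
  have h1 : ((N.choose v : ℕ) : ℝ) ≤ (N : ℝ) ^ v / (v.factorial : ℝ) := Nat.choose_le_pow_div v N
  have h2 : (v : ℝ) ^ v / (v.factorial : ℝ) ≤ Real.exp v :=
    Real.pow_div_factorial_le_exp (v : ℝ) hv0.le v
  have h3 : Real.exp (v : ℝ) = Real.exp 1 ^ v := by
    rw [← Real.exp_nat_mul, mul_one]
  have h4 : (N : ℝ) ^ v / (v.factorial : ℝ) =
      (N / v : ℝ) ^ v * ((v : ℝ) ^ v / (v.factorial : ℝ)) := by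
    rw [div_pow]
    field_simp
  have h5 : (Real.exp 1 * N / v) ^ v = (N / v : ℝ) ^ v * Real.exp 1 ^ v := by
    rw [← mul_pow]
    congr 1
    ring
  rw [h5, ← h3]
  refine h1.trans ?_
  rw [h4]
  exact mul_le_mul_of_nonneg_left h2 (by positivity)

theorem Sn_base {n k v : ℕ} (hk : 6 ≤ k) (hv : 1 ≤ v) (hs : 12 * v ≤ n) :
    (Real.exp 1 * n / v) * (Real.exp 1 * (2 ^ k * n : ℕ) / v) * ((v : ℝ) / n) ^ k ≤ v / (3 * n) := by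
  have hv0 : (0 : ℝ) < v := Nat.cast_pos.2 hv
  have hn0 : (0 : ℝ) < n := Nat.cast_pos.2 (by omega)
  obtain ⟨j, rfl⟩ : ∃ j, k = j + 2 := ⟨k - 2, by omega⟩
  obtain ⟨x, hx⟩ : ∃ x : ℝ, x = v / n := ⟨_, rfl⟩
  have hx0 : 0 < x := by rw [hx]; positivity
  have hx1 : x ≤ 1 / 12 := by
    rw [hx, div_le_iff₀ hn0]
    have h1 : ((12 * v : ℕ) : ℝ) ≤ n := Nat.cast_le.2 hs
    push_cast at h1
    linarith
  have h1 : (Real.exp 1 * n / v) * (Real.exp 1 * (2 ^ (j + 2) * n : ℕ) / v) *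
      ((v : ℝ) / n) ^ (j + 2) = 4 * Real.exp 1 ^ 2 * (2 * x) ^ j := by
    have e1 : ((v : ℝ) / n) ^ (j + 2) = x ^ j * x ^ 2 := by rw [← hx, pow_add]
    have e2 : (n : ℝ) / v = 1 / x := by
      rw [hx]
      field_simp
    have e3 : (Real.exp 1 * n / v) * (Real.exp 1 * (2 ^ (j + 2) * n : ℕ) / v) =
        Real.exp 1 ^ 2 * 2 ^ (j + 2) * (n / v) ^ 2 := by
      push_cast
      ring
    rw [e1, e3, e2, mul_pow, pow_add]
    field_simp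
    ring
  have h2 : (v : ℝ) / (3 * n) = x / 3 := by
    rw [hx]
    field_simp
  rw [h1, h2]
  have h3 : (2 * x) ^ j ≤ (2 * x) ^ 4 :=
    pow_le_pow_of_le_one (by linarith) (by linarith) (by omega)
  have h4 : (2 * x) ^ 4 ≤ x / 108 := by
    have h5 : (2 * x) ^ 3 ≤ (1 / 6) ^ 3 := pow_le_pow_left₀ (by linarith) (by linarith) 3
    have h6 : (2 * x) ^ 4 = (2 * x) * (2 * x) ^ 3 := by ring
    rw [h6]
    nlinarith
  have h5 : Real.exp 1 ^ 2 ≤ 7.4 := by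
    have h10 := Real.exp_one_lt_d9
    have h11 := Real.exp_pos 1
    nlinarith
  have h6 : 0 < Real.exp 1 ^ 2 := by positivity
  calc 4 * Real.exp 1 ^ 2 * (2 * x) ^ j ≤ 4 * Real.exp 1 ^ 2 * (x / 108) :=
        mul_le_mul_of_nonneg_left (h3.trans h4) (by positivity)
    _ ≤ x / 3 := by nlinarith

theorem Sn_term {n k v : ℕ} (hk : 6 ≤ k) (hv : 1 ≤ v) (hs : 12 * v ≤ n) :
    ((n.choose v * (2 ^ k * n).choose v *
        (((2 * v) ^ k) ^ v * ((2 * n) ^ k) ^ (2 ^ k * n - v)) : ℕ) : ℝ) ≤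
      ((((2 * n) ^ k) ^ (2 ^ k * n) : ℕ) : ℝ) * (1 / (3 * n) * (1 / 2) ^ (v - 1)) := by
  have hv0 : (0 : ℝ) < v := Nat.cast_pos.2 hv
  have hn0 : (0 : ℝ) < n := Nat.cast_pos.2 (by omega)
  have hvm : v ≤ 2 ^ k * n := by
    have h1 : 1 * n ≤ 2 ^ k * n := Nat.mul_le_mul_right n (Nat.one_le_two_pow)
    omega
  have hC1 := Sn_choose n v hv
  have hC2 := Sn_choose (2 ^ k * n) v hv
  have hP : ((((2 * v) ^ k) ^ v * ((2 * n) ^ k) ^ (2 ^ k * n - v) : ℕ) : ℝ) =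
      ((((2 * n) ^ k) ^ (2 ^ k * n) : ℕ) : ℝ) * (((v : ℝ) / n) ^ k) ^ v := by
    have h1 : ((((2 * n) ^ k) ^ (2 ^ k * n) : ℕ) : ℝ) =
        (((2 * n : ℝ)) ^ k) ^ v * ((2 * n : ℝ) ^ k) ^ (2 ^ k * n - v) := by
      rw [← pow_add, Nat.add_sub_cancel' hvm]
      push_cast
      rfl
    rw [h1]
    push_cast
    have h2 : (2 * (v : ℝ)) ^ k = (2 * n : ℝ) ^ k * ((v : ℝ) / n) ^ k := by
      rw [← mul_pow]
      congr 1
      field_simp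
    rw [h2, mul_pow ((2 * n : ℝ) ^ k)]
    ring
  obtain ⟨T, hT⟩ : ∃ T : ℝ, T = ((((2 * n) ^ k) ^ (2 ^ k * n) : ℕ) : ℝ) := ⟨_, rfl⟩
  have hT0 : 0 ≤ T := by
    rw [hT]
    exact Nat.cast_nonneg _
  rw [← hT] at hP ⊢
  have hb := Sn_base hk hv hs
  have h1 : ((n.choose v * (2 ^ k * n).choose v *
        (((2 * v) ^ k) ^ v * ((2 * n) ^ k) ^ (2 ^ k * n - v)) : ℕ) : ℝ) =
      ((n.choose v : ℕ) : ℝ) * (((2 ^ k * n).choose v : ℕ) : ℝ) * (T * (((v : ℝ) / n) ^ k) ^ v) := by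
    rw [← hP, Nat.cast_mul, Nat.cast_mul]
  rw [h1]
  have h2 : ((n.choose v : ℕ) : ℝ) * (((2 ^ k * n).choose v : ℕ) : ℝ) ≤
      (Real.exp 1 * n / v) ^ v * (Real.exp 1 * (2 ^ k * n : ℕ) / v) ^ v :=
    mul_le_mul hC1 hC2 (Nat.cast_nonneg _) (by positivity)
  have h3 : 0 ≤ T * (((v : ℝ) / n) ^ k) ^ v := mul_nonneg hT0 (by positivity)
  refine (mul_le_mul_of_nonneg_right h2 h3).trans ?_
  have h4 : (Real.exp 1 * n / v) ^ v * (Real.exp 1 * (2 ^ k * n : ℕ) / v) ^ v *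
      (T * (((v : ℝ) / n) ^ k) ^ v) = T * ((Real.exp 1 * n / v) *
        (Real.exp 1 * (2 ^ k * n : ℕ) / v) * ((v : ℝ) / n) ^ k) ^ v := by
    rw [mul_pow, mul_pow]
    ring
  rw [h4]
  refine mul_le_mul_of_nonneg_left ?_ hT0
  refine (pow_le_pow_left₀ (by positivity) hb v).trans ?_
  obtain ⟨w, rfl⟩ : ∃ w, v = w + 1 := ⟨v - 1, by omega⟩
  rw [Nat.add_sub_cancel, pow_succ]
  have h5 : ((w + 1 : ℕ) : ℝ) / (3 * n) ≤ 1 / 36 := by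
    rw [div_le_iff₀ (by positivity)]
    have h1 : ((12 * (w + 1) : ℕ) : ℝ) ≤ n := Nat.cast_le.2 hs
    push_cast at h1 ⊢
    linarith
  have h6 : (((w + 1 : ℕ) : ℝ) / (3 * n)) ^ w ≤ (1 / 36) ^ w :=
    pow_le_pow_left₀ (by positivity) h5 w
  have h7 : ((w + 1 : ℕ) : ℝ) ≤ 18 ^ w := by
    have h8 : w + 1 ≤ 18 ^ w := Nat.lt_pow_self (by norm_num)
    exact_mod_cast h8
  calc (((w + 1 : ℕ) : ℝ) / (3 * n)) ^ w * (((w + 1 : ℕ) : ℝ) / (3 * n)) ≤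
      (1 / 36) ^ w * (18 ^ w / (3 * n)) :=
        mul_le_mul h6 (div_le_div_of_nonneg_right h7 (by positivity)) (by positivity) (by positivity)
    _ = 1 / (3 * n) * (1 / 2) ^ w := by
        have h9 : (1 / 2 : ℝ) ^ w = (1 / 36) ^ w * 18 ^ w := by
          rw [← mul_pow]
          norm_num
        rw [h9]
        ring

theorem Sn_geom (s : ℕ) : ∑ v ∈ Icc 1 s, (1 / 2 : ℝ) ^ (v - 1) ≤ 2 - 2 * (1 / 2) ^ s := by
  induction s with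
  | zero => simp
  | succ s ih =>
    rw [Finset.sum_Icc_succ_top (by omega), Nat.add_sub_cancel, pow_succ]
    linarith

theorem spread_sum_le {n k s : ℕ} (hk : 6 ≤ k) (hn : 1 ≤ n) (hs : 12 * s ≤ n) :
    ((∑ v ∈ Icc 1 s, n.choose v * (2 ^ k * n).choose v *
        (((2 * v) ^ k) ^ v * ((2 * n) ^ k) ^ (2 ^ k * n - v)) : ℕ) : ℝ) ≤
      1 / n * (((2 * n) ^ k) ^ (2 ^ k * n) : ℕ) := by
  have hn0 : (0 : ℝ) < n := Nat.cast_pos.2 hn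
  rw [Nat.cast_sum]
  refine (Finset.sum_le_sum fun v hv ↦ Sn_term (n := n) (k := k) (v := v) hk (mem_Icc.1 hv).1
    (by have := (mem_Icc.1 hv).2; omega)).trans ?_
  rw [← Finset.mul_sum, ← Finset.mul_sum, mul_comm]
  refine mul_le_mul_of_nonneg_right ?_ (Nat.cast_nonneg _)
  have h1 := Sn_geom s
  have h2 : (0 : ℝ) < (1 / 2) ^ s := by positivity
  calc 1 / (3 * (n : ℝ)) * ∑ v ∈ Icc 1 s, (1 / 2 : ℝ) ^ (v - 1) ≤ 1 / (3 * n) * 2 :=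
        mul_le_mul_of_nonneg_left (by linarith) (by positivity)
    _ ≤ 1 / n := by
        rw [div_mul_eq_mul_div, div_le_div_iff₀ (by positivity) hn0]
        linarith

end Pool.Agent.H13.LD
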