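import Pool.Agent.H13.LD.Core
import Pool.Agent.H13.LD.Cf

/-!
# Row Su: union bound for `Spread`

PROOF. Let `f` be such that `Spread (cnf f) s` fails: there is a nonempty `I ⊆ cnf f` such that
`W = I.biUnion vars` has `v ≤ s` elements and `v ≤ I.card`. The clauses of `cnf f` are nonempty
(`1 ≤ k`), so `1 ≤ v`. For each `C ∈ I` choose an index `i` with `univ.image (f i) = C`; these
indices are different, and `(f i r).1 ∈ W` for all `r`. So there is a set `S` of exactly `v` indices
such that `f i ∈ X_W := Fintype.piFinset (fun _ : Fin k => W ×ˢ univ)` for all `i ∈ S`.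
`X_W.card = (2 * v) ^ k`. So `f` lies in the union over `v ∈ Icc 1 s`, `W ∈ powersetCard v univ`,
`S ∈ powersetCard v univ` of the sets `univ.filter fun f => ∀ i ∈ S, f i ∈ X_W`, whose cardinality is
given by `card_fun_mem` (and `Fintype.card (Fin k → Lit n) = (2 * n) ^ k`). Use
`Finset.card_biUnion_le`.
-/

namespace Pool.Agent.H13.LD

open Finset

open Classical in
theorem card_not_spread_le {n k m s : ℕ} (hk : 1 ≤ k) :
    (univ.filter fun f : Fin m → Fin k → Lit n => ¬ Spread (cnf f) s).card ≤
      ∑ v ∈ Icc 1 s, n.choose v * m.choose v * (((2 * v) ^ k) ^ v * ((2 * n) ^ k) ^ (m - v)) := by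
  set X : Finset (Fin n) → Finset (Fin k → Lit n) :=
    fun W ↦ Fintype.piFinset (fun _ : Fin k ↦ W ×ˢ (univ : Finset Bool)) with hX
  have hsub : (univ.filter fun f : Fin m → Fin k → Lit n => ¬ Spread (cnf f) s) ⊆
      (Icc 1 s).biUnion fun v ↦ (powersetCard v (univ : Finset (Fin n))).biUnion fun W ↦
        (powersetCard v (univ : Finset (Fin m))).biUnion fun S ↦
          univ.filter fun f : Fin m → Fin k → Lit n ↦ ∀ i ∈ S, f i ∈ X W := by
    intro f hf
    rw [mem_filter] at hf
    have hns := hf.2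
    unfold Spread at hns
    push Not at hns
    obtain ⟨I, hI, hne, hWs, hWI⟩ := hns
    have hex : ∀ C : {C // C ∈ I}, ∃ i : Fin m, univ.image (f i) = C.1 := by
      intro C
      have := hI C.2
      rw [cnf, mem_image] at this
      obtain ⟨i, -, hi⟩ := this
      exact ⟨i, hi⟩
    choose g hg using hex
    have hginj : Function.Injective g := by
      intro C C' h
      apply Subtype.ext
      rw [← hg C, ← hg C', h]
    have hcard : (univ.image g).card = I.card := by
      rw [card_image_of_injective _ hginj, card_univ, Fintype.card_coe]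
    obtain ⟨S, hS, hSc⟩ := exists_subset_card_eq (hWI.trans hcard.ge)
    have hmem : ∀ C : {C // C ∈ I}, ∀ r : Fin k, (f (g C) r).1 ∈ I.biUnion vars := by
      intro C r
      rw [mem_biUnion]
      refine ⟨C.1, C.2, ?_⟩
      rw [vars, mem_image]
      refine ⟨f (g C) r, ?_, rfl⟩
      rw [← hg C]
      exact mem_image_of_mem _ (mem_univ r)
    have h1 : 1 ≤ (I.biUnion vars).card := by
      obtain ⟨C, hC⟩ := hne
      exact card_pos.mpr ⟨_, hmem ⟨C, hC⟩ ⟨0, hk⟩⟩
    rw [mem_biUnion]
    refine ⟨(I.biUnion vars).card, mem_Icc.mpr ⟨h1, hWs⟩, ?_⟩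
    rw [mem_biUnion]
    refine ⟨I.biUnion vars, mem_powersetCard.mpr ⟨subset_univ _, rfl⟩, ?_⟩
    rw [mem_biUnion]
    refine ⟨S, mem_powersetCard.mpr ⟨subset_univ _, hSc⟩, ?_⟩
    rw [mem_filter]
    refine ⟨mem_univ _, fun i hi ↦ ?_⟩
    obtain ⟨C, -, rfl⟩ := mem_image.mp (hS hi)
    rw [hX, Fintype.mem_piFinset]
    intro r
    exact mem_product.mpr ⟨hmem C r, mem_univ _⟩
  refine (card_le_card hsub).trans ?_
  refine card_biUnion_le.trans (sum_le_sum fun v _ ↦ ?_)
  refine card_biUnion_le.trans ?_
  have hW : ∀ W ∈ powersetCard v (univ : Finset (Fin n)),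
      ((powersetCard v (univ : Finset (Fin m))).biUnion fun S ↦
          univ.filter fun f : Fin m → Fin k → Lit n ↦ ∀ i ∈ S, f i ∈ X W).card ≤
      m.choose v * (((2 * v) ^ k) ^ v * ((2 * n) ^ k) ^ (m - v)) := by
    intro W hW
    have hWc : W.card = v := (mem_powersetCard.mp hW).2
    refine card_biUnion_le.trans ?_
    have hS : ∀ S ∈ powersetCard v (univ : Finset (Fin m)),
        (univ.filter fun f : Fin m → Fin k → Lit n ↦ ∀ i ∈ S, f i ∈ X W).card =
          ((2 * v) ^ k) ^ v * ((2 * n) ^ k) ^ (m - v) := by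
      intro S hS
      have hSc : S.card = v := (mem_powersetCard.mp hS).2
      have h := card_fun_mem S (X W)
      have hXc : (X W).card = (2 * v) ^ k := by
        rw [hX, Fintype.card_piFinset]
        simp [hWc, mul_comm]
      have hF : Fintype.card (Fin k → Lit n) = (2 * n) ^ k := by
        simp [mul_comm]
      rw [hXc, hF, hSc] at h
      convert h
    rw [sum_congr rfl hS, sum_const, card_powersetCard, card_univ, Fintype.card_fin, smul_eq_mul]
  refine (sum_le_sum hW).trans ?_
  rw [sum_const, card_powersetCard, card_univ, Fintype.card_fin, smul_eq_mul, mul_assoc]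

end Pool.Agent.H13.LD
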