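import Mathlib

/-!
# Row Tn: estimate for the union bound of row Tu

PROOF. Put `m = 2 ^ k * n`, `q₀ = n - 8 * t`, `L = log (e * n / t)` (`≥ 0`). For `j ∈ Icc t (2 * t)`
(terms with `j > m` vanish, `m.choose j = 0`; otherwise `((2n)^k)^(m-j) = ((2n)^k)^m / ((2n)^k)^j`) the
`j`-th term divided by `((2n)^k)^m` is
`C(n, 8t)^P * C(n, j) * C(m, j) * (P k (2j) (2j + q₀)^(k-1) / (2n)^k)^j`. Use the standard bound
`C(N, i) ≤ (e N / i)^i` for `1 ≤ i` (`Nat.choose_le_pow_div : C(N,i) ≤ N^i / i!` and `i! ≥ (i/e)^i`):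
 * `C(n, n - 8t) = C(n, 8t) ≤ (e n / (8 t))^(8t) ≤ exp (8 t L) ≤ exp (8 j L)`, so to the power `P` at
   most `exp (8 P j L)`;
 * `C(n, j) ≤ (e n / j)^j ≤ exp (j L)`;
 * `C(m, j) ≤ (e 2^k n / j)^j`, and `(e 2^k n / j) * (P k (2j) (2j+q₀)^(k-1)) / (2n)^k
   = 2 e P k ((2j + q₀) / n)^(k-1)`; `2j + q₀ ≤ 4t + n - 8t = n - 4t`, so
   `((2j+q₀)/n)^(k-1) ≤ (1 - 4t/n)^(k-1) ≤ exp (-4 (t/n) (k-1))`.
The product is at most `exp (j * ((8 P + 1) L + log (2 e P k) - 4 (t/n) (k-1))) ≤ exp (-j) ≤ exp (-t)` by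
`h`. Sum over the `t + 1` values of `j`.
-/

namespace Pool.Agent.H13.LD

open Finset

theorem Tn_choose (N i : ℕ) (hi : 1 ≤ i) : (N.choose i : ℝ) ≤ (Real.exp 1 * N / i) ^ i := by
  have hi0 : (0:ℝ) < i := by exact_mod_cast hi
  have h1 : (N.choose i : ℝ) ≤ (N : ℝ) ^ i / (i.factorial : ℝ) := Nat.choose_le_pow_div i N
  have h2 : (i : ℝ) ^ i / (i.factorial : ℝ) ≤ Real.exp i := Real.pow_div_factorial_le_exp _ hi0.le i
  have hf : (0:ℝ) < (i.factorial : ℝ) := by exact_mod_cast i.factorial_pos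
  have h3 : Real.exp (i : ℝ) = Real.exp 1 ^ i := by
    rw [← Real.exp_nat_mul, mul_one]
  calc (N.choose i : ℝ) ≤ (N : ℝ) ^ i / (i.factorial : ℝ) := h1
    _ = (N : ℝ) ^ i / (i : ℝ) ^ i * ((i : ℝ) ^ i / (i.factorial : ℝ)) := by
        field_simp
    _ ≤ (N : ℝ) ^ i / (i : ℝ) ^ i * Real.exp i := by gcongr
    _ = (Real.exp 1 * N / i) ^ i := by
        rw [h3, div_pow, mul_pow]
        ring

theorem Tn_term {n k t P j : ℕ} (hk : 2 ≤ k) (ht : 1 ≤ t) (hP : 1 ≤ P) (hn : 8 * t ≤ n)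
    (h : (8 * P + 1 : ℝ) * Real.log (Real.exp 1 * n / t) + Real.log (2 * Real.exp 1 * P * k) + 1 ≤
      4 * (t / n) * (k - 1)) (hj1 : t ≤ j) (hj2 : j ≤ 2 * t) :
    (((n.choose (n - 8 * t)) ^ P * n.choose j * (2 ^ k * n).choose j *
        ((P * k * (2 * j) * (2 * j + (n - 8 * t)) ^ (k - 1)) ^ j *
          ((2 * n) ^ k) ^ (2 ^ k * n - j)) : ℕ) : ℝ) ≤
      Real.exp (-t) * (((2 * n) ^ k) ^ (2 ^ k * n) : ℕ) := by
  have ht0 : (0:ℝ) < t := by exact_mod_cast ht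
  have hjr : (t:ℝ) ≤ j := by exact_mod_cast hj1
  have hj0 : (0:ℝ) < j := by linarith
  have hnt : 8 * (t:ℝ) ≤ n := by exact_mod_cast hn
  have hn0 : (0:ℝ) < n := by linarith
  have hP0 : (0:ℝ) < P := by exact_mod_cast hP
  have hk0 : (0:ℝ) < k := by
    have : 0 < k := by omega
    exact_mod_cast this
  have he : (1:ℝ) ≤ Real.exp 1 := Real.one_le_exp zero_le_one
  have he0 : (0:ℝ) < Real.exp 1 := Real.exp_pos 1
  obtain ⟨L, hL⟩ : ∃ L : ℝ, L = Real.log (Real.exp 1 * n / t) := ⟨_, rfl⟩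
  have hbase : 1 ≤ Real.exp 1 * n / t := by
    rw [le_div_iff₀ ht0]
    nlinarith
  have hL0 : 0 ≤ L := by
    rw [hL]
    exact Real.log_nonneg hbase
  have hLe : Real.exp L = Real.exp 1 * n / t := by
    rw [hL, Real.exp_log (by linarith)]
  rw [← hL] at h
  -- first factor
  have ha : ((n.choose (n - 8 * t) : ℕ) : ℝ) ≤ Real.exp (8 * t * L) := by
    rw [Nat.choose_symm hn]
    refine (Tn_choose n (8 * t) (by omega)).trans ?_
    have h1 : Real.exp 1 * n / ((8 * t : ℕ) : ℝ) ≤ Real.exp L := by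
      rw [hLe]
      push_cast
      exact div_le_div_of_nonneg_left (by positivity) ht0 (by linarith)
    calc (Real.exp 1 * n / ((8 * t : ℕ) : ℝ)) ^ (8 * t) ≤ Real.exp L ^ (8 * t) :=
          pow_le_pow_left₀ (by positivity) h1 _
      _ = Real.exp (8 * t * L) := by
          rw [← Real.exp_nat_mul]
          push_cast
          ring_nf
  have haP : ((n.choose (n - 8 * t) : ℕ) : ℝ) ^ P ≤ Real.exp (8 * j * P * L) := by
    calc ((n.choose (n - 8 * t) : ℕ) : ℝ) ^ P ≤ Real.exp (8 * t * L) ^ P :=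
          pow_le_pow_left₀ (Nat.cast_nonneg _) ha P
      _ = Real.exp (P * (8 * t * L)) := by rw [← Real.exp_nat_mul]
      _ ≤ Real.exp (8 * j * P * L) := by
          refine Real.exp_le_exp.2 ?_
          have h1 : (t:ℝ) * (8 * P * L) ≤ j * (8 * P * L) :=
            mul_le_mul_of_nonneg_right hjr (by positivity)
          linarith
  have hb : (n.choose j : ℝ) ≤ Real.exp (j * L) := by
    refine (Tn_choose n j (by omega)).trans ?_
    have h1 : Real.exp 1 * n / (j : ℝ) ≤ Real.exp L := by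
      rw [hLe]
      exact div_le_div_of_nonneg_left (by positivity) ht0 hjr
    calc (Real.exp 1 * n / (j : ℝ)) ^ j ≤ Real.exp L ^ j := pow_le_pow_left₀ (by positivity) h1 _
      _ = Real.exp (j * L) := by rw [← Real.exp_nat_mul]
  -- the main factor
  obtain ⟨Q, hQ⟩ : ∃ Q : ℕ, Q = 2 * j + (n - 8 * t) := ⟨_, rfl⟩
  have hQr : (Q : ℝ) ≤ n - 4 * t := by
    have h1 : Q + 4 * t ≤ n := by omega
    have h2 : (Q : ℝ) + 4 * t ≤ n := by exact_mod_cast h1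
    linarith
  obtain ⟨W, hW⟩ : ∃ W : ℝ, W = (2 * (n : ℝ)) ^ k := ⟨_, rfl⟩
  have hW0 : 0 < W := by
    rw [hW]
    positivity
  obtain ⟨x, hx⟩ : ∃ x : ℝ, x = 4 * ((t : ℝ) / n) := ⟨_, rfl⟩
  have hQe : (Q : ℝ) ≤ n * Real.exp (-x) := by
    have h1 := Real.one_sub_le_exp_neg x
    have h2 : (n : ℝ) * (1 - x) = n - 4 * t := by
      rw [hx]
      field_simp
    have h3 : (n : ℝ) * (1 - x) ≤ n * Real.exp (-x) := mul_le_mul_of_nonneg_left h1 hn0.le
    linarith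
  have hkk : ((k - 1 : ℕ) : ℝ) = (k : ℝ) - 1 := by
    rw [Nat.cast_sub (by omega)]
    simp
  have hQk : (Q : ℝ) ^ (k - 1) ≤ (n : ℝ) ^ (k - 1) * Real.exp (-(x * (k - 1))) := by
    calc (Q : ℝ) ^ (k - 1) ≤ (n * Real.exp (-x)) ^ (k - 1) :=
          pow_le_pow_left₀ (Nat.cast_nonneg _) hQe _
      _ = _ := by
          rw [mul_pow, ← Real.exp_nat_mul, hkk]
          ring_nf
  have hnk : (n : ℝ) * (n : ℝ) ^ (k - 1) = (n : ℝ) ^ k := by
    rw [← pow_succ']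
    congr 1
    omega
  obtain ⟨R, hR⟩ : ∃ R : ℝ, R = Real.log (2 * Real.exp 1 * P * k) - x * (k - 1) := ⟨_, rfl⟩
  have hRe : Real.exp R = 2 * Real.exp 1 * P * k * Real.exp (-(x * (k - 1))) := by
    rw [hR, sub_eq_add_neg, Real.exp_add, Real.exp_log (by positivity)]
  have hc : ((2 ^ k * n).choose j : ℝ) * ((P : ℝ) * k * (2 * j) * (Q : ℝ) ^ (k - 1)) ^ j ≤
      (W * Real.exp R) ^ j := by
    have h1 := Tn_choose (2 ^ k * n) j (by omega)
    calc ((2 ^ k * n).choose j : ℝ) * ((P : ℝ) * k * (2 * j) * (Q : ℝ) ^ (k - 1)) ^ j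
        ≤ (Real.exp 1 * ((2 ^ k * n : ℕ) : ℝ) / j) ^ j *
          ((P : ℝ) * k * (2 * j) * (Q : ℝ) ^ (k - 1)) ^ j := by gcongr
      _ = (2 * Real.exp 1 * P * k * (2 ^ k * n) * (Q : ℝ) ^ (k - 1)) ^ j := by
          rw [← mul_pow]
          congr 1
          push_cast
          field_simp
      _ ≤ (2 * Real.exp 1 * P * k * (2 ^ k * n) *
          ((n : ℝ) ^ (k - 1) * Real.exp (-(x * (k - 1))))) ^ j := by gcongr
      _ = (W * Real.exp R) ^ j := by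
          congr 1
          rw [hW, hRe, mul_pow, ← hnk]
          ring
  have hjm : j ≤ 2 ^ k * n := by
    have h1 : n ≤ 2 ^ k * n := Nat.le_mul_of_pos_left n (by positivity)
    omega
  have hfin : 8 * (j:ℝ) * P * L + j * L + j * R ≤ -t := by
    have h1 : (8 * P + 1 : ℝ) * L + R + 1 ≤ 0 := by
      rw [hR, hx]
      linarith
    have h2 : (j:ℝ) * ((8 * P + 1 : ℝ) * L + R + 1) ≤ 0 :=
      mul_nonpos_of_nonneg_of_nonpos hj0.le h1
    linarith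
  rw [← hQ]
  push_cast
  rw [← hW]
  have hcast : ((2 ^ k * n).choose j : ℝ) = (((2 ^ k * n).choose j : ℕ) : ℝ) := rfl
  calc ((n.choose (n - 8 * t) : ℕ) : ℝ) ^ P * (n.choose j : ℝ) * ((2 ^ k * n).choose j : ℝ) *
        (((P : ℝ) * k * (2 * j) * (Q : ℝ) ^ (k - 1)) ^ j * W ^ (2 ^ k * n - j))
      = ((n.choose (n - 8 * t) : ℕ) : ℝ) ^ P * (n.choose j : ℝ) *
        (((2 ^ k * n).choose j : ℝ) * ((P : ℝ) * k * (2 * j) * (Q : ℝ) ^ (k - 1)) ^ j) *
        W ^ (2 ^ k * n - j) := by ring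
    _ ≤ Real.exp (8 * j * P * L) * Real.exp (j * L) * (W * Real.exp R) ^ j *
        W ^ (2 ^ k * n - j) := by gcongr
    _ = Real.exp (8 * j * P * L + j * L + j * R) * (W ^ j * W ^ (2 ^ k * n - j)) := by
        rw [mul_pow, Real.exp_add, Real.exp_add, ← Real.exp_nat_mul R j]
        ring
    _ = Real.exp (8 * j * P * L + j * L + j * R) * W ^ (2 ^ k * n) := by
        rw [← pow_add, Nat.add_sub_cancel' hjm]
    _ ≤ Real.exp (-t) * W ^ (2 ^ k * n) := by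
        exact mul_le_mul_of_nonneg_right (Real.exp_le_exp.2 hfin) (by positivity)

theorem typ_sum_le {n k t P : ℕ} (hk : 2 ≤ k) (ht : 1 ≤ t) (hP : 1 ≤ P) (hn : 8 * t ≤ n)
    (h : (8 * P + 1 : ℝ) * Real.log (Real.exp 1 * n / t) + Real.log (2 * Real.exp 1 * P * k) + 1 ≤
      4 * (t / n) * (k - 1)) :
    ((∑ j ∈ Icc t (2 * t), (n.choose (n - 8 * t)) ^ P * n.choose j * (2 ^ k * n).choose j *
        ((P * k * (2 * j) * (2 * j + (n - 8 * t)) ^ (k - 1)) ^ j *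
          ((2 * n) ^ k) ^ (2 ^ k * n - j)) : ℕ) : ℝ) ≤
      (t + 1) * Real.exp (-t) * (((2 * n) ^ k) ^ (2 ^ k * n) : ℕ) := by
  rw [Nat.cast_sum]
  refine (Finset.sum_le_sum fun j hj => Tn_term hk ht hP hn h (Finset.mem_Icc.1 hj).1
    (Finset.mem_Icc.1 hj).2).trans (le_of_eq ?_)
  rw [Finset.sum_const, Nat.card_Icc, nsmul_eq_mul, ← mul_assoc]
  have h1 : 2 * t + 1 - t = t + 1 := by omega
  rw [h1, Nat.cast_add, Nat.cast_one]

end Pool.Agent.H13.LD
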