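import Pool.Agent.H13.LD.Xc
import Pool.Agent.H13.LD.Cf

/-!
# Row Tu: union bound for typical assignments

PROOF. Let `f` be such that `a` is not typical for `cnf f`: there are `Qs` (at most `P` sets with at
most `q₀` elements) and `J` with `t ≤ J.card ≤ 2 * t` and
`J.card ≤ ((cnf f).filter fun C => Touches J C ∧ ∃ Q ∈ Qs, Allowed Q J a C).card`. Put `j = J.card`.
(1) There is `Q : Fin P → Finset (Fin n)` with `(Q p).card = q₀` for all `p` such that every member of
`Qs` is contained in some `Q p`: enumerate `Qs` (`Qs.card ≤ P`), enlarge its members to sets with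
exactly `q₀ ≤ n` elements (`Finset.exists_superset_card_eq` or similar), use any set with `q₀`
elements for the rest. `Allowed` is monotone in `Q`.
(2) For each `C` in the filter set choose an index `i` with `univ.image (f i) = C`
(`Finset.mem_image`); different `C` have different indices. So the set of the `i : Fin m` with
`f i ∈ tuples k Q J a` has at least `j` elements; let `S` be a subset with exactly `j` elements
(`Finset.exists_subset_card_eq`).
So `f` lies in the union, over `j ∈ Icc t (2 * t)`,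
`Q ∈ Fintype.piFinset (fun _ : Fin P => powersetCard q₀ univ)`, `J ∈ powersetCard j univ` and
`S ∈ powersetCard j univ` (subsets of `Fin m`), of the sets
`univ.filter fun f => ∀ i ∈ S, f i ∈ tuples k Q J a`. The cardinality of such a set is
`(tuples ..).card ^ j * (Fintype.card (Fin k → Lit n)) ^ (m - j)` by `card_fun_mem`,
`Fintype.card (Fin k → Lit n) = (2 * n) ^ k` (`Fintype.card_pi_const` etc.; `n * 2 = 2 * n`), and
`card_tuples_le`. Use `Finset.card_biUnion_le` and sum.
-/

namespace Pool.Agent.H13.LD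

open Finset

theorem Tu_sets {n P q₀ : ℕ} (hq : q₀ ≤ n) (Qs : Finset (Finset (Fin n))) (hQs : Qs.card ≤ P)
    (hQ : ∀ Q ∈ Qs, Q.card ≤ q₀) :
    ∃ Q : Fin P → Finset (Fin n), (∀ p, (Q p).card = q₀) ∧ ∀ Q' ∈ Qs, ∃ p, Q' ⊆ Q p := by
  classical
  obtain ⟨D, -, hD⟩ := Finset.exists_subset_card_eq (s := (univ : Finset (Fin n))) (n := q₀)
    (by rw [card_univ, Fintype.card_fin]; exact hq)
  have hE : ∀ x : Qs, ∃ E : Finset (Fin n), (x : Finset (Fin n)) ⊆ E ∧ E.card = q₀ := fun x =>
    Finset.exists_superset_card_eq (hQ x x.2) (by rw [Fintype.card_fin]; exact hq)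
  choose E hE1 hE2 using hE
  obtain ⟨ι⟩ : Nonempty (Qs ↪ Fin P) := Function.Embedding.nonempty_of_card_le (by
    rw [Fintype.card_fin, Fintype.card_coe]
    exact hQs)
  refine ⟨fun p => if h : ∃ x, ι x = p then E h.choose else D, fun p => ?_, fun Q' hQ' => ?_⟩
  · by_cases h : ∃ x, ι x = p
    · simp only [dif_pos h]
      exact hE2 _
    · simp only [dif_neg h]
      exact hD
  · refine ⟨ι ⟨Q', hQ'⟩, ?_⟩
    have h : ∃ x, ι x = ι ⟨Q', hQ'⟩ := ⟨_, rfl⟩
    simp only [dif_pos h]
    have h1 : h.choose = ⟨Q', hQ'⟩ := ι.injective h.choose_spec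
    rw [h1]
    exact hE1 ⟨Q', hQ'⟩

theorem Tu_card {n k m P q₀ : ℕ} (a : Fin n → Bool) (Q : Fin P → Finset (Fin n))
    (hQ : ∀ p, (Q p).card = q₀) (J : Finset (Fin n)) (S : Finset (Fin m)) (j : ℕ)
    (hJ : J.card = j) (hS : S.card = j) :
    (univ.filter fun f : Fin m → Fin k → Lit n => ∀ i ∈ S, f i ∈ tuples k Q J a).card ≤
      (P * k * (2 * j) * (2 * j + q₀) ^ (k - 1)) ^ j * ((2 * n) ^ k) ^ (m - j) := by
  rw [card_fun_mem, hS]
  have h1 : Fintype.card (Fin k → Lit n) = (2 * n) ^ k := by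
    rw [Fintype.card_fun, Fintype.card_prod, Fintype.card_fin, Fintype.card_bool, Fintype.card_fin,
      mul_comm n 2]
  rw [h1]
  refine Nat.mul_le_mul_right _ (Nat.pow_le_pow_left ?_ _)
  have h2 := card_tuples_le (k := k) Q (fun p => (hQ p).le) J a
  rw [hJ] at h2
  exact h2

open Classical in
theorem card_not_typ_le {n k m P q₀ t : ℕ} (hq : q₀ ≤ n) (hP : 1 ≤ P) (a : Fin n → Bool) :
    (univ.filter fun f : Fin m → Fin k → Lit n => ¬ Typ (cnf f) P q₀ t a).card ≤
      ∑ j ∈ Icc t (2 * t), (n.choose q₀) ^ P * n.choose j * m.choose j *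
        ((P * k * (2 * j) * (2 * j + q₀) ^ (k - 1)) ^ j * ((2 * n) ^ k) ^ (m - j)) := by
  have hsub : (univ.filter fun f : Fin m → Fin k → Lit n => ¬ Typ (cnf f) P q₀ t a) ⊆
      (Icc t (2 * t)).biUnion fun j =>
        (Fintype.piFinset fun _ : Fin P => powersetCard q₀ (univ : Finset (Fin n))).biUnion fun Q =>
          (powersetCard j (univ : Finset (Fin n))).biUnion fun J =>
            (powersetCard j (univ : Finset (Fin m))).biUnion fun S =>
              univ.filter fun f : Fin m → Fin k → Lit n => ∀ i ∈ S, f i ∈ tuples k Q J a := by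
    intro f hf
    rw [mem_filter] at hf
    have hf2 := hf.2
    unfold Typ at hf2
    push Not at hf2
    obtain ⟨Qs, hQs, hQ0, J, hJ1, hJ2, hJ3⟩ := hf2
    obtain ⟨Q, hQ, hQsub⟩ := Tu_sets hq Qs hQs hQ0
    have h1 : ((cnf f).filter fun C => Touches J C ∧ ∃ Q ∈ Qs, Allowed Q J a C) ⊆
        (univ.filter fun i => f i ∈ tuples k Q J a).image fun i => univ.image (f i) := by
      intro C hC
      rw [mem_filter] at hC
      obtain ⟨hC1, ⟨l, hl, hlJ⟩, Q', hQ', hall⟩ := hC
      unfold cnf at hC1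
      rw [mem_image] at hC1
      obtain ⟨i, -, hi⟩ := hC1
      rw [mem_image]
      refine ⟨i, ?_, hi⟩
      rw [mem_filter]
      refine ⟨mem_univ _, ?_⟩
      unfold tuples
      rw [mem_filter]
      refine ⟨mem_univ _, ?_, ?_⟩
      · rw [← hi, mem_image] at hl
        obtain ⟨s, -, hs⟩ := hl
        exact ⟨s, by rw [hs]; exact hlJ⟩
      · obtain ⟨p, hp⟩ := hQsub Q' hQ'
        refine ⟨p, fun s => ?_⟩
        have h2 : f i s ∈ C := by
          rw [← hi, mem_image]
          exact ⟨s, mem_univ _, rfl⟩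
        rcases hall (f i s) h2 with h3 | ⟨h3, h4⟩
        · exact Or.inl h3
        · exact Or.inr ⟨hp h3, h4⟩
    have h2 : J.card ≤ (univ.filter fun i => f i ∈ tuples k Q J a).card :=
      hJ3.trans ((card_le_card h1).trans card_image_le)
    obtain ⟨S, hS1, hS2⟩ := Finset.exists_subset_card_eq h2
    rw [mem_biUnion]
    refine ⟨J.card, mem_Icc.2 ⟨hJ1, hJ2⟩, ?_⟩
    rw [mem_biUnion]
    refine ⟨Q, ?_, ?_⟩
    · rw [Fintype.mem_piFinset]
      intro p
      rw [mem_powersetCard]
      exact ⟨subset_univ _, hQ p⟩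
    rw [mem_biUnion]
    refine ⟨J, ?_, ?_⟩
    · rw [mem_powersetCard]
      exact ⟨subset_univ _, rfl⟩
    rw [mem_biUnion]
    refine ⟨S, ?_, ?_⟩
    · rw [mem_powersetCard]
      exact ⟨subset_univ _, hS2⟩
    rw [mem_filter]
    exact ⟨mem_univ _, fun i hi => (mem_filter.1 (hS1 hi)).2⟩
  refine (card_le_card hsub).trans (card_biUnion_le.trans (sum_le_sum fun j _ => ?_))
  have hc1 : (Fintype.piFinset fun _ : Fin P => powersetCard q₀ (univ : Finset (Fin n))).card =
      (n.choose q₀) ^ P := by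
    rw [Fintype.card_piFinset_const, card_powersetCard, card_univ, Fintype.card_fin]
  have hc2 : (powersetCard j (univ : Finset (Fin n))).card = n.choose j := by
    rw [card_powersetCard, card_univ, Fintype.card_fin]
  have hc3 : (powersetCard j (univ : Finset (Fin m))).card = m.choose j := by
    rw [card_powersetCard, card_univ, Fintype.card_fin]
  rw [← hc1, ← hc2, ← hc3, mul_assoc, mul_assoc]
  refine card_biUnion_le_card_mul _ _ _ fun Q hQ => ?_
  refine card_biUnion_le_card_mul _ _ _ fun J hJ => ?_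
  refine card_biUnion_le_card_mul _ _ _ fun S hS => ?_
  refine Tu_card a Q (fun p => ?_) J S j (mem_powersetCard.1 hJ).2 (mem_powersetCard.1 hS).2
  have := Fintype.mem_piFinset.1 hQ p
  exact (mem_powersetCard.1 this).2

end Pool.Agent.H13.LD
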