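import Pool.Agent.H13.LD.Core

/-!
# Row Us: the random formula is unsatisfiable

PROOF. If `cnf f` is satisfiable, then for some `a : Fin n → Bool` every `f i` belongs to
`X_a = univ.filter fun g => ∃ r, a (g r).1 = (g r).2` (`ClauseSat a (univ.image (f i))`). The complement
of `X_a` is the `Fintype.piFinset` of the sets `{l | a l.1 ≠ l.2}`, which have `n` elements, so
`X_a.card = (2n)^k - n^k` (as real numbers `(2n)^k (1 - 2^(-k))`). The number of the `f` with values in
`X_a` is `X_a.card ^ m` (`Fintype.card_piFinset_const`). Union bound over the `2^n` assignments: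
the number is at most `2^n * ((2n)^k)^m * (1 - 2^(-k))^m`, `m = 2^k * n`, and
`(1 - 2^(-k))^(2^k n) ≤ exp (-n)` (`1 - x ≤ exp (-x)`). So it is at most
`2^n * exp (-n) * ((2n)^k)^m`. (For `n = 0`: the formula has no clauses, `m = 0`; both sides are
`≤ 1 ≤ 1`, fine.)
-/

namespace Pool.Agent.H13.LD

open Finset

open Classical in
theorem Us_card (n k : ℕ) (a : Fin n → Bool) :
    (univ.filter fun g : Fin k → Lit n => ∃ r, a (g r).1 = (g r).2).card + n ^ k = (2 * n) ^ k := by
  have h1 : (univ.filter fun g : Fin k → Lit n => ¬ ∃ r, a (g r).1 = (g r).2) =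
      Fintype.piFinset fun _ : Fin k => univ.filter fun l : Lit n => a l.1 ≠ l.2 := by
    ext g
    simp
  have h2 : (univ.filter fun l : Lit n => a l.1 ≠ l.2).card = n := by
    have e : (univ.filter fun l : Lit n => a l.1 ≠ l.2) =
        univ.image fun i : Fin n => ((i, !(a i)) : Lit n) := by
      ext ⟨i, b⟩
      simp only [mem_filter, mem_univ, true_and, mem_image, Prod.mk.injEq]
      constructor
      · intro h
        refine ⟨i, rfl, ?_⟩
        cases hb : b <;> cases ha : a i <;> simp_all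
      · rintro ⟨j, rfl, hb⟩ h
        rw [← h] at hb
        cases ha : a j <;> simp_all
    rw [e, card_image_of_injective _ (fun i j h => by simpa using congrArg Prod.fst h), card_univ,
      Fintype.card_fin]
  have h3 := card_filter_add_card_filter_not (s := (univ : Finset (Fin k → Lit n)))
    (fun g : Fin k → Lit n => ∃ r, a (g r).1 = (g r).2)
  rw [h1, Fintype.card_piFinset_const, h2] at h3
  rw [h3, card_univ, Fintype.card_fun, Fintype.card_prod, Fintype.card_fin, Fintype.card_fin,
    Fintype.card_bool, mul_comm]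

open Classical in
theorem card_sat_le (n k : ℕ) :
    ((univ.filter fun f : Fin (2 ^ k * n) → Fin k → Lit n => ∃ a, Sat (cnf f) a).card : ℝ) ≤
      2 ^ n * Real.exp (-n) * (((2 * n) ^ k) ^ (2 ^ k * n) : ℕ) := by
  set m := 2 ^ k * n with hm
  have h1 : (univ.filter fun f : Fin m → Fin k → Lit n => ∃ a, Sat (cnf f) a) ⊆
      (univ : Finset (Fin n → Bool)).biUnion fun a => Fintype.piFinset fun _ : Fin m =>
        univ.filter fun g : Fin k → Lit n => ∃ r, a (g r).1 = (g r).2 := by
    intro f hf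
    obtain ⟨a, ha⟩ := (mem_filter.1 hf).2
    refine mem_biUnion.2 ⟨a, mem_univ _, Fintype.mem_piFinset.2 fun i => mem_filter.2 ⟨mem_univ _, ?_⟩⟩
    obtain ⟨l, hl, hal⟩ := ha (univ.image (f i)) (mem_image.2 ⟨i, mem_univ _, rfl⟩)
    obtain ⟨r, -, rfl⟩ := mem_image.1 hl
    exact ⟨r, hal⟩
  have h2 := (card_le_card h1).trans card_biUnion_le
  have hq0 : (0 : ℝ) ≤ 1 - (1 / 2 : ℝ) ^ k := by
    have : (1 / 2 : ℝ) ^ k ≤ 1 := pow_le_one₀ (by norm_num) (by norm_num)
    linarith
  have h3 : ∀ a : Fin n → Bool, (((Fintype.piFinset fun _ : Fin m =>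
      univ.filter fun g : Fin k → Lit n => ∃ r, a (g r).1 = (g r).2).card : ℕ) : ℝ) ≤
        Real.exp (-n) * (((2 * n) ^ k) ^ m : ℕ) := by
    intro a
    rw [Fintype.card_piFinset_const]
    have h4 := Us_card n k a
    have h5 : ((univ.filter fun g : Fin k → Lit n => ∃ r, a (g r).1 = (g r).2).card : ℝ) =
        (1 - (1 / 2 : ℝ) ^ k) * (2 * n : ℝ) ^ k := by
      have h6 : ((univ.filter fun g : Fin k → Lit n => ∃ r, a (g r).1 = (g r).2).card : ℝ) + (n : ℝ) ^ k =
          (2 * n : ℝ) ^ k := by exact_mod_cast h4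
      have h7 : (1 / 2 : ℝ) ^ k * (2 * n : ℝ) ^ k = (n : ℝ) ^ k := by
        rw [← mul_pow]
        congr 1
        ring
      rw [sub_mul, one_mul, h7]
      linarith
    push_cast
    rw [h5, mul_pow]
    refine mul_le_mul_of_nonneg_right ?_ (by positivity)
    have h8 : 1 - (1 / 2 : ℝ) ^ k ≤ Real.exp (-(1 / 2 : ℝ) ^ k) := by
      have := Real.add_one_le_exp (-(1 / 2 : ℝ) ^ k)
      linarith
    refine (pow_le_pow_left₀ hq0 h8 m).trans ?_
    rw [← Real.exp_nat_mul]
    refine le_of_eq (congrArg Real.exp ?_)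
    rw [hm]
    push_cast
    have h9 : (2 : ℝ) ^ k * (1 / 2) ^ k = 1 := by
      rw [← mul_pow]
      norm_num
    linear_combination (-(n : ℝ)) * h9
  calc ((univ.filter fun f : Fin m → Fin k → Lit n => ∃ a, Sat (cnf f) a).card : ℝ)
      ≤ ((∑ a : Fin n → Bool, (Fintype.piFinset fun _ : Fin m =>
          univ.filter fun g : Fin k → Lit n => ∃ r, a (g r).1 = (g r).2).card : ℕ) : ℝ) := by
        exact_mod_cast h2
    _ = ∑ a : Fin n → Bool, (((Fintype.piFinset fun _ : Fin m =>
          univ.filter fun g : Fin k → Lit n => ∃ r, a (g r).1 = (g r).2).card : ℕ) : ℝ) := by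
        push_cast
        rfl
    _ ≤ ∑ _a : Fin n → Bool, Real.exp (-n) * (((2 * n) ^ k) ^ m : ℕ) := sum_le_sum fun a _ => h3 a
    _ = 2 ^ n * Real.exp (-n) * (((2 * n) ^ k) ^ m : ℕ) := by
        rw [sum_const, card_univ, Fintype.card_fun, Fintype.card_fin, Fintype.card_bool, nsmul_eq_mul]
        push_cast
        ring

end Pool.Agent.H13.LD
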