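import Pool.Agent.H13.LD.Sz
import Pool.Agent.H13.LD.Tu
import Pool.Agent.H13.LD.Su
import Pool.Agent.H13.LD.Tn
import Pool.Agent.H13.LD.Sn
import Pool.Agent.H13.LD.Us
import Pool.Agent.H13.LD.Av
import Pool.Agent.H13.LD.Pa
import Pool.Agent.H13.LD.Pb
import Pool.Agent.H13.LD.Pc
import Pool.Agent.H13.LD.Lm

/-!
# Strong exponential time hypothesis for resolution of linear depth
-/

namespace Pool.Agent.H13.LD

open Finset

theorem cnf_card {n m k : ℕ} (f : Fin m → Fin k → Lit n) : ∀ C ∈ cnf f, C.card ≤ k := by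
  intro C hC
  obtain ⟨i, -, rfl⟩ := Finset.mem_image.1 hC
  exact Finset.card_image_le.trans (by simp)

theorem card_all (n k m : ℕ) :
    Fintype.card (Fin m → Fin k → Lit n) = ((2 * n) ^ k) ^ m := by
  simp [Fintype.card_prod, mul_comm]

/-- The lower bound for one formula. -/
theorem size_ge {n k P t w d : ℕ} {F : CNF n} {τ : ℝ} (hk6 : 6 ≤ k)
    (hS : Spread F (2 * t)) (hk : ∀ C ∈ F, C.card ≤ k) (hw : w * k ≤ t) (ht : 1 ≤ t) (hP : 1 ≤ P)
    (hn : 24 * t ≤ n) (h1 : 100 * (Real.log k / k) ≤ τ) (ht1 : τ * n / 2 ≤ t)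
    (ht2 : (t : ℝ) ≤ τ * n)
    (hd : d < (n - 8 * t) + (P - 1) * (16 * t)) (R : Refutation F w d)
    (hT : ¬ 2 * (by classical exact (univ.filter fun a : Fin n → Bool => Typ F P (n - 8 * t) t a).card) <
      Fintype.card (Fin n → Bool)) :
    (2 : ℝ) ^ ((1 - 27 * τ * Real.log k) * n) ≤ R.size := by
  classical
  have e1 : (n - 8 * t) - (n - 24 * t) = 16 * t := by omega
  have hd' : d < (n - 8 * t) + (P - 1) * ((n - 8 * t) - (n - 24 * t)) := by rw [e1]; exact hd
  have h2 := card_typ_le hS hk hw ht hP (by omega : n - 24 * t ≤ n - 8 * t) hd' R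
  have e2 : n - (n - 24 * t) = 24 * t := by omega
  rw [e2] at h2
  have h3 : Fintype.card (Fin n → Bool) ≤
      2 * (R.size * (2 ^ (24 * t) * ∑ i ∈ range (t + 1), n.choose i)) := by
    refine (not_lt.1 hT).trans ?_
    refine Nat.mul_le_mul_left 2 ?_
    convert h2
  have h4 : Fintype.card (Fin n → Bool) = 2 ^ n := by simp
  rw [h4] at h3
  have h5 : ((2 : ℝ) ^ n) ≤ 2 * (R.size * (2 ^ (24 * t) *
      Real.exp (t * Real.log (Real.exp 1 * n / t)))) := by
    have h6 : ((2 ^ n : ℕ) : ℝ) ≤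
        ((2 * (R.size * (2 ^ (24 * t) * ∑ i ∈ range (t + 1), n.choose i)) : ℕ) : ℝ) := by
      exact_mod_cast h3
    push_cast at h6
    refine h6.trans ?_
    have h7 := sum_choose_le ht (by omega : t ≤ n)
    push_cast at h7
    gcongr
  have h8 := final_exp hk6 h1 ht ht1 ht2
  have hl2 : 0 < Real.log 2 := Real.log_pos (by norm_num)
  have e3 : Real.exp (t * Real.log (Real.exp 1 * n / t)) =
      (2 : ℝ) ^ (t * Real.log (Real.exp 1 * n / t) / Real.log 2) := by
    rw [Real.rpow_def_of_pos (by norm_num)]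
    congr 1
    field_simp
  rw [e3] at h5
  have e4 : (2 : ℝ) * (R.size * (2 ^ (24 * t) *
      (2 : ℝ) ^ (t * Real.log (Real.exp 1 * n / t) / Real.log 2))) =
      R.size * (2 : ℝ) ^ (1 + 24 * t + t * Real.log (Real.exp 1 * n / t) / Real.log 2) := by
    rw [Real.rpow_add (by norm_num), Real.rpow_add (by norm_num), Real.rpow_one]
    have : (2 : ℝ) ^ (24 * (t : ℝ)) = 2 ^ (24 * t) := by
      rw [← Real.rpow_natCast]; push_cast; rfl
    rw [this]; ring
  rw [e4] at h5
  have h9 : (2 : ℝ) ^ (n : ℝ) ≤ R.size * (2 : ℝ) ^ (27 * τ * Real.log k * n) := by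
    rw [Real.rpow_natCast]
    refine h5.trans ?_
    exact mul_le_mul_of_nonneg_left
      (Real.rpow_le_rpow_of_exponent_le (by norm_num) h8) (by positivity)
  have e5 : (1 - 27 * τ * Real.log k) * (n : ℝ) = n - 27 * τ * Real.log k * n := by ring
  rw [e5, Real.rpow_sub (by norm_num), div_le_iff₀ (by positivity)]
  exact h9

open Classical in
theorem main : ∃ K : ℝ, 0 < K ∧ ∀ k : ℕ, 3 ≤ k → ∀ r : ℝ, 0 ≤ r → ∃ δ : ℝ, 0 < δ ∧
    ∀ η : ℝ, 0 < η → ∃ n₀ : ℕ, ∀ n ≥ n₀,
      ((univ.filter fun f : Fin (2 ^ k * n) → Fin k → Lit n =>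
        ¬ Hard (cnf f) ⌊δ * n⌋₊ ⌊(1 + r) * n⌋₊
          ((2 : ℝ) ^ ((1 - K * (Real.log k ^ 2 / k + √(r * Real.log k ^ 3 / k))) * n))).card : ℝ) ≤
      η * Fintype.card (Fin (2 ^ k * n) → Fin k → Lit n) := by
  refine ⟨2700, by norm_num, fun k hk r hr => ?_⟩
  have hk0 : (0 : ℝ) < k := by
    have : 0 < k := by omega
    exact_mod_cast this
  have hlog : 1 ≤ Real.log k := by
    have h3 : (3 : ℝ) ≤ k := by exact_mod_cast hk
    rw [← Real.log_exp 1]
    refine Real.log_le_log (Real.exp_pos 1) ?_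
    have := Real.exp_one_lt_d9
    linarith
  have hlog0 : 0 < Real.log k := by linarith
  set τ : ℝ := 100 * (Real.log k / k + √(r * Real.log k / k)) with hτdef
  have hτ1 : 100 * (Real.log k / k) ≤ τ := by
    rw [hτdef]
    have := Real.sqrt_nonneg (r * Real.log k / k)
    nlinarith
  have hτpos : 0 < τ := lt_of_lt_of_le (by positivity) hτ1
  have hεeq : 2700 * (Real.log k ^ 2 / k + √(r * Real.log k ^ 3 / k)) =
      27 * τ * Real.log k := by
    have e1 : √(r * Real.log k ^ 3 / k) = √(r * Real.log k / k) * Real.log k := by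
      have : r * Real.log k ^ 3 / k = (r * Real.log k / k) * Real.log k ^ 2 := by ring
      rw [this, Real.sqrt_mul (by positivity), Real.sqrt_sq hlog0.le]
    rw [e1, hτdef]; ring
  rw [hεeq]
  by_cases hε : 1 ≤ 27 * τ * Real.log k
  · refine ⟨1, one_pos, fun η hη => ?_⟩
    obtain ⟨n₀, hn₀⟩ := lim_unsat hη
    refine ⟨n₀, fun n hn => ?_⟩
    have h1 := card_sat_le n k
    have h2 := hn₀ n hn
    have h3 : (univ.filter fun f : Fin (2 ^ k * n) → Fin k → Lit n =>
        ¬ Hard (cnf f) ⌊1 * (n : ℝ)⌋₊ ⌊(1 + r) * n⌋₊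
          ((2 : ℝ) ^ ((1 - 27 * τ * Real.log k) * n))) ⊆
        univ.filter fun f : Fin (2 ^ k * n) → Fin k → Lit n => ∃ a, Sat (cnf f) a := by
      intro f hf
      simp only [Finset.mem_filter, Finset.mem_univ, true_and] at hf ⊢
      by_contra hns
      refine hf ⟨hns, fun R => ?_⟩
      have hR : 1 ≤ R.size := by
        have := R.root.isLt
        omega
      have hR' : (1 : ℝ) ≤ R.size := by exact_mod_cast hR
      refine le_trans ?_ hR'
      refine Real.rpow_le_one_of_one_le_of_nonpos (by norm_num) ?_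
      have : (0 : ℝ) ≤ n := by positivity
      nlinarith
    have h4 := Finset.card_le_card h3
    have h5 : ((univ.filter fun f : Fin (2 ^ k * n) → Fin k → Lit n =>
        ¬ Hard (cnf f) ⌊1 * (n : ℝ)⌋₊ ⌊(1 + r) * n⌋₊
          ((2 : ℝ) ^ ((1 - 27 * τ * Real.log k) * n))).card : ℝ) ≤
        2 ^ n * Real.exp (-n) * (((2 * n) ^ k) ^ (2 ^ k * n) : ℕ) :=
      le_trans (by exact_mod_cast h4) h1
    refine h5.trans ?_
    rw [card_all]
    exact mul_le_mul_of_nonneg_right h2 (by positivity)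
  · push Not at hε
    have hτ27 : 27 * τ < 1 := by nlinarith
    have hτle1 : τ ≤ 1 := by linarith
    have hk6 : 6 ≤ k := by
      by_contra hlt
      push Not at hlt
      have h6 : (k : ℝ) ≤ 5 := by
        have : k ≤ 5 := by omega
        exact_mod_cast this
      have : 1 / (k : ℝ) ≤ Real.log k / k := by gcongr
      have h7 : 1 / 5 ≤ 1 / (k : ℝ) := by
        apply one_div_le_one_div_of_le hk0 h6
      linarith
    have hτ2 : 10000 * (r * Real.log k / k) ≤ τ ^ 2 := by
      have h1 : 100 * √(r * Real.log k / k) ≤ τ := by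
        rw [hτdef]
        have : 0 ≤ Real.log k / k := by positivity
        linarith
      have h2 : 0 ≤ 100 * √(r * Real.log k / k) := by positivity
      have h3 : (100 * √(r * Real.log k / k)) ^ 2 ≤ τ ^ 2 := by gcongr
      have h4 : (100 * √(r * Real.log k / k)) ^ 2 = 10000 * (r * Real.log k / k) := by
        rw [mul_pow, Real.sq_sqrt (by positivity)]; norm_num
      linarith
    set P : ℕ := ⌈r / (8 * τ)⌉₊ + 2 with hPdef
    have hP1 : 1 ≤ P := by omega
    have hPlow : r / (8 * τ) + 2 ≤ P := by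
      rw [hPdef]; push_cast
      have := Nat.le_ceil (r / (8 * τ))
      linarith
    have hPup : (P : ℝ) ≤ r / (8 * τ) + 3 := by
      rw [hPdef]; push_cast
      have := (Nat.ceil_lt_add_one (show 0 ≤ r / (8 * τ) by positivity)).le
      linarith
    refine ⟨τ / (2 * k), by positivity, fun η hη => ?_⟩
    obtain ⟨n₁, hn₁⟩ := large_n (k := k) (by omega) hτpos (by linarith) hr hPlow
    obtain ⟨n₂, hn₂⟩ := lim_bounds hτpos hη
    refine ⟨max (max n₁ n₂) 1, fun n hn => ?_⟩
    have hnn1 : n₁ ≤ n := le_trans (le_trans (le_max_left _ _) (le_max_left _ _)) hn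
    have hnn2 : n₂ ≤ n := le_trans (le_trans (le_max_right _ _) (le_max_left _ _)) hn
    have hn1 : 1 ≤ n := le_trans (le_max_right _ _) hn
    obtain ⟨g1, g2, g3, g4, g5⟩ := hn₁ n hnn1
    have g6 := hn₂ n hnn2
    set t : ℕ := ⌊τ * n⌋₊ with htdef
    have ht1 : 1 ≤ t := by omega
    have ht2 : (t : ℝ) ≤ τ * n := Nat.floor_le (by positivity)
    have hn0 : (0 : ℝ) < n := by exact_mod_cast hn1
    have ht0 : (0 : ℝ) < t := by exact_mod_cast ht1
    -- the union bounds
    have hx : τ / 2 ≤ (t : ℝ) / n := by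
      rw [le_div_iff₀ hn0]; linarith
    have hcond := cond_h hk6 hr hτ1 hτ2 hτle1 hP1 hPup hx
    have e1 : Real.exp 1 / ((t : ℝ) / n) = Real.exp 1 * n / t := by field_simp
    rw [e1] at hcond
    have hT := typ_sum_le (by omega : 2 ≤ k) ht1 hP1 (by omega : 8 * t ≤ n) hcond
    have hTa : ∀ a : Fin n → Bool, ((univ.filter fun f : Fin (2 ^ k * n) → Fin k → Lit n =>
        ¬ Typ (cnf f) P (n - 8 * t) t a).card : ℝ) ≤
        (t + 1) * Real.exp (-t) * (((2 * n) ^ k) ^ (2 ^ k * n) : ℕ) := by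
      intro a
      refine le_trans ?_ hT
      exact_mod_cast card_not_typ_le (Nat.sub_le _ _) hP1 a
    have hAv := averaging (fun (f : Fin (2 ^ k * n) → Fin k → Lit n) (a : Fin n → Bool) =>
      Typ (cnf f) P (n - 8 * t) t a) _ hTa
    have hSn := spread_sum_le (s := 2 * t) hk6 hn1 (by omega)
    have hSu : ((univ.filter fun f : Fin (2 ^ k * n) → Fin k → Lit n =>
        ¬ Spread (cnf f) (2 * t)).card : ℝ) ≤ 1 / n * (((2 * n) ^ k) ^ (2 ^ k * n) : ℕ) := by
      refine le_trans ?_ hSn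
      exact_mod_cast card_not_spread_le (by omega : 1 ≤ k)
    have hUs := card_sat_le n k
    -- the bad formulas
    have hsub : (univ.filter fun f : Fin (2 ^ k * n) → Fin k → Lit n =>
        ¬ Hard (cnf f) ⌊τ / (2 * k) * n⌋₊ ⌊(1 + r) * n⌋₊
          ((2 : ℝ) ^ ((1 - 27 * τ * Real.log k) * n))) ⊆
        (univ.filter fun f : Fin (2 ^ k * n) → Fin k → Lit n =>
          2 * (univ.filter fun a => Typ (cnf f) P (n - 8 * t) t a).card <
            Fintype.card (Fin n → Bool)) ∪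
        (univ.filter fun f : Fin (2 ^ k * n) → Fin k → Lit n => ¬ Spread (cnf f) (2 * t)) ∪
        (univ.filter fun f : Fin (2 ^ k * n) → Fin k → Lit n => ∃ a, Sat (cnf f) a) := by
      intro f hf
      simp only [Finset.mem_filter, Finset.mem_univ, true_and, Finset.mem_union] at hf ⊢
      by_contra hcon
      push Not at hcon
      obtain ⟨⟨c1, c2⟩, c3⟩ := hcon
      refine hf ⟨fun ⟨a, ha⟩ => c3 a ha, fun R => ?_⟩
      refine size_ge hk6 c2 (cnf_card f) g5 ht1 hP1 g2 hτ1 g3 ht2 g4 R ?_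
      rw [not_lt]
      convert c1
    have hcard := Finset.card_le_card hsub
    have hcard2 := hcard.trans ((Finset.card_union_le _ _).trans
      (Nat.add_le_add_right (Finset.card_union_le _ _) _))
    have hcard3 : ((univ.filter fun f : Fin (2 ^ k * n) → Fin k → Lit n =>
        ¬ Hard (cnf f) ⌊τ / (2 * k) * n⌋₊ ⌊(1 + r) * n⌋₊
          ((2 : ℝ) ^ ((1 - 27 * τ * Real.log k) * n))).card : ℝ) ≤
        2 * ((t + 1) * Real.exp (-t) * (((2 * n) ^ k) ^ (2 ^ k * n) : ℕ)) +
        1 / n * (((2 * n) ^ k) ^ (2 ^ k * n) : ℕ) +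
        2 ^ n * Real.exp (-n) * (((2 * n) ^ k) ^ (2 ^ k * n) : ℕ) := by
      have hc : ((univ.filter fun f : Fin (2 ^ k * n) → Fin k → Lit n =>
          ¬ Hard (cnf f) ⌊τ / (2 * k) * n⌋₊ ⌊(1 + r) * n⌋₊
            ((2 : ℝ) ^ ((1 - 27 * τ * Real.log k) * n))).card : ℝ) ≤
          ((univ.filter fun f : Fin (2 ^ k * n) → Fin k → Lit n =>
            2 * (univ.filter fun a => Typ (cnf f) P (n - 8 * t) t a).card <
              Fintype.card (Fin n → Bool)).card : ℝ) +
          ((univ.filter fun f : Fin (2 ^ k * n) → Fin k → Lit n =>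
            ¬ Spread (cnf f) (2 * t)).card : ℝ) +
          ((univ.filter fun f : Fin (2 ^ k * n) → Fin k → Lit n =>
            ∃ a, Sat (cnf f) a).card : ℝ) := by
        exact_mod_cast hcard2
      refine hc.trans ?_
      exact add_le_add (add_le_add hAv hSu) hUs
    refine hcard3.trans ?_
    rw [card_all]
    have h9 : (0 : ℝ) ≤ (((2 * n) ^ k) ^ (2 ^ k * n) : ℕ) := by positivity
    have h10 := mul_le_mul_of_nonneg_right g6 h9
    refine le_trans (le_of_eq ?_) h10
    ring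

end Pool.Agent.H13.LD
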