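import Pool.Agent.H13.LD.Hal
import Pool.Agent.H13.LD.Clo

/-!
# Row Ph: a new phase, in which only the variables in `M` (and `J`) are remembered

PROOF. Put `A₁ = M ∪ J ⊆ A` and `Qs' = insert (A \ J) Qs`. Apply `close_state` to
`(A₁, J, b, T)` with `Qs'` in place of `Qs` (`Qs'.card + 1 ≤ Qs.card + 2 ≤ P`; the members of `Qs'`
have at most `q₀` elements; `A₁ \ J = M \ J ⊆ A \ J`). `allow`: for `C ∈ T`, if
`Allowed (A \ J) J a C` then `A \ J ∈ Qs'`; otherwise some `Q ∈ Qs ⊆ Qs'` does it.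
`hM`: let `I ⊆ F` be open w.r.t. `(A₁, b)` with `J.card + (nb A₁ I).card ≤ 2 * t`. Let `I_b` be the
set of the clauses of `I` that are open w.r.t. `(A, b)`. For `I' ⊆ I_b`: if `I' = ∅` then
`I'.card = 0 ≤ ..`; otherwise `nb A I' ⊆ nb A₁ I` (as `A₁ ⊆ A`), so `safe` gives
`I'.card < (nb A I').card`. By `match_ext A b I_b` there is `b'` with `b' = b` on `A` and for every
`C ∈ I_b` some `l ∈ C` with `l.1 ∉ A`, `b' l.1 = l.2`. It has the properties required in `hM`: `b' = b`
on `A₁ ⊆ A`; for `C ∈ I_b` the literal `l` works as `l.1 ∉ A ⊇ A₁`; for `C ∈ I \ I_b` there is `l ∈ C`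
with `l.1 ∈ A`, `b l.1 = l.2` (not open w.r.t. `(A, b)`), and `l.1 ∉ A₁` as `C` is open w.r.t.
`(A₁, b)`; so `b' l.1 = b l.1 = l.2`.
The conclusion: `M ⊆ A₁ ⊆ A₂`, `b₂ = b` on `A₁ ⊇ M`, `(A₂ \ J₂).card = (A₁ \ J).card ≤ M.card`.
-/

namespace Pool.Agent.H13.LD

open Finset

theorem phase_state {n : ℕ} {F : CNF n} {P q₀ t : ℕ} {a : Fin n → Bool} (hTyp : Typ F P q₀ t a)
    {Qs : Finset (Finset (Fin n))} {A J : Finset (Fin n)} {b : Fin n → Bool}
    {T : Finset (Clause n)} (hI : Inv F a t Qs A J b T) (hP : Qs.card + 2 ≤ P)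
    (hQ : ∀ Q ∈ Qs, Q.card ≤ q₀) (hq : (A \ J).card ≤ q₀) {M : Finset (Fin n)} (hM : M ⊆ A) :
    ∃ (A₂ J₂ : Finset (Fin n)) (b₂ : Fin n → Bool) (T₂ : Finset (Clause n)),
      Inv F a t (insert (A \ J) Qs) A₂ J₂ b₂ T₂ ∧ M ⊆ A₂ ∧ (∀ y ∈ M, b₂ y = b y) ∧
      (A₂ \ J₂).card ≤ M.card := by
  have hA1 : M ∪ J ⊆ A := union_subset hM hI.sub
  have hsd : (M ∪ J) \ J ⊆ A \ J := sdiff_subset_sdiff hA1 (Subset.refl _)
  have hsM : (M ∪ J) \ J ⊆ M := by
    intro x hx
    rw [mem_sdiff, mem_union] at hx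
    rcases hx.1 with h | h
    · exact h
    · exact absurd h hx.2
  obtain ⟨A₂, J₂, b₂, T₂, h1, h2, h3, h4⟩ := close_state hTyp (Qs := insert (A \ J) Qs)
    (A := M ∪ J) (J := J) (b := b) (T := T)
    (by
      have := card_insert_le (A \ J) Qs
      omega)
    (by
      intro Q hQ'
      rw [mem_insert] at hQ'
      rcases hQ' with rfl | hQ'
      · exact hq
      · exact hQ Q hQ')
    ((card_le_card hsd).trans hq) subset_union_right
    (fun x hx hxJ => hI.agree x (hA1 hx) hxJ) hI.TF hI.card hI.sat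
    (by
      intro C hC
      right
      rcases hI.allow C hC with h | ⟨Q, hQ', h⟩
      · exact ⟨A \ J, mem_insert_self _ _, h⟩
      · exact ⟨Q, mem_insert_of_mem hQ', h⟩)
    hI.small
    (by
      intro I hIF hop hcard
      haveI : DecidablePred (fun C : Clause n => Open A b C) := Classical.decPred _
      obtain ⟨Ib, hIb⟩ : ∃ Ib, Ib = I.filter (fun C => Open A b C) := ⟨_, rfl⟩
      have hsub : Ib ⊆ I := by
        rw [hIb]
        exact filter_subset _ _
      obtain ⟨b', hb1, hb2⟩ := match_ext A b Ib (by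
        intro I' hI'
        rcases I'.eq_empty_or_nonempty with he | hne
        · rw [he, card_empty]
          exact Nat.zero_le _
        · have hnb : nb A I' ⊆ nb (M ∪ J) I := by
            unfold nb
            exact sdiff_subset_sdiff (biUnion_subset_biUnion_of_subset_left _
              (hI'.trans hsub)) hA1
          have hc := card_le_card hnb
          refine (hI.safe I' (hI'.trans (hsub.trans hIF)) hne ?_ (by omega)).le
          intro C hC
          have := hI' hC
          rw [hIb, mem_filter] at this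
          exact this.2)
      refine ⟨b', fun x hx => hb1 x (hA1 hx), fun C hC => ?_⟩
      by_cases hCo : Open A b C
      · obtain ⟨l, hl, hlA, hlb⟩ := hb2 C (by
          rw [hIb, mem_filter]
          exact ⟨hC, hCo⟩)
        exact ⟨l, hl, fun h => hlA (hA1 h), hlb⟩
      · unfold Open at hCo
        push Not at hCo
        obtain ⟨l, hl, hlA, hlb⟩ := hCo
        refine ⟨l, hl, fun h => hop C hC l hl h hlb, ?_⟩
        rw [hb1 l.1 hlA]
        exact hlb)
  refine ⟨A₂, J₂, b₂, T₂, h1, subset_union_left.trans h2,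
    fun y hy => h3 y (mem_union_left _ hy), ?_⟩
  rw [h4]
  exact card_le_card hsM

end Pool.Agent.H13.LD
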