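import Pool.Agent.H13.LD.Hal
import Pool.Agent.H13.LD.Clo

/-!
# Row Rd: reading a variable

PROOF. Put `A₁ = insert x A`, `b₁ = Function.update b x (a x)`. Apply `close_state` to
`(A₁, J, b₁, T)` (`A₁ \ J = insert x (A \ J)` since `x ∉ A ⊇ J`; so its cardinality is
`≤ (A \ J).card + 1 ≤ q₀`). The hypotheses except `hM` are immediate from the invariant (`x ∉ A`, so
`b₁ = b` on `A`; `Allowed Q J a C` is monotone in `Q`).
`hM`: let `I ⊆ F` be open w.r.t. `(A₁, b₁)` with `J.card + (nb A₁ I).card ≤ 2 * t`. By `match_ext`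
it is enough to show `I'.card ≤ (nb A₁ I').card` for all `I' ⊆ I`. If `I' = ∅` this is trivial. The
clauses of `I'` are open w.r.t. `(A, b)`, `nb A I' ⊆ insert x (nb A₁ I')`, so
`(nb A I').card ≤ (nb A₁ I').card + 1`, and `(nb A₁ I').card ≤ (nb A₁ I).card`.
 * If `J.card + (nb A I').card ≤ 2 * t`, `safe` gives
   `I'.card < (nb A I').card ≤ (nb A₁ I').card + 1`.
 * Otherwise `J.card + (nb A₁ I').card = 2 * t`. First, every `C ∈ I'` has a literal `l` with
   `l.1 ∉ A₁`: if not, `nb A {C} ⊆ {x}`, `J.card + 1 ≤ 2 * t`, and `safe` for `{C}` gives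
   `1 < (nb A {C}).card ≤ 1`. Now apply `hTyp` with `Qs' = insert (A₁ \ J) Qs`,
   `J' = J ∪ nb A₁ I'` (disjoint union, `J'.card = 2 * t`, which is `≥ t`). The filter set of `Typ`
   contains `T` and `I'` (as in row Clo: `C ∈ I'`, `l ∈ C`: either `l.1 ∉ A₁`, then
   `l.1 ∈ nb A₁ I'`, or `l.1 ∈ J`, or `l.1 ∈ A₁ \ J`, then `b₁ l.1 ≠ l.2` and `b₁ l.1 = a l.1`), and
   these are disjoint (the clauses of `T` are not open w.r.t. `(A₁, b₁)`). So
   `T.card + I'.card < J'.card = J.card + (nb A₁ I').card` and `J.card ≤ T.card`, whence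
   `I'.card < (nb A₁ I').card`.
Finally `close_state` gives `A₂ ⊇ A₁ ∋ x`, `b₂ = b₁` on `A₁`, and `A₂ \ J₂ = A₁ \ J`.
-/

namespace Pool.Agent.H13.LD

open Finset

theorem read_state {n : ℕ} {F : CNF n} {P q₀ t : ℕ} {a : Fin n → Bool} (hTyp : Typ F P q₀ t a)
    {Qs : Finset (Finset (Fin n))} {A J : Finset (Fin n)} {b : Fin n → Bool}
    {T : Finset (Clause n)} (hI : Inv F a t Qs A J b T) (hP : Qs.card + 1 ≤ P)
    (hQ : ∀ Q ∈ Qs, Q.card ≤ q₀) (hq : (A \ J).card + 1 ≤ q₀) {x : Fin n} (hx : x ∉ A) :
    ∃ (A₂ J₂ : Finset (Fin n)) (b₂ : Fin n → Bool) (T₂ : Finset (Clause n)),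
      Inv F a t Qs A₂ J₂ b₂ T₂ ∧ A ⊆ A₂ ∧ x ∈ A₂ ∧ (∀ y ∈ A, b₂ y = b y) ∧
      (A₂ \ J₂).card ≤ (A \ J).card + 1 := by
  classical
  have hxJ : x ∉ J := fun h => hx (hI.sub h)
  obtain ⟨A₁, hA₁⟩ : ∃ A₁ : Finset (Fin n), A₁ = insert x A := ⟨_, rfl⟩
  obtain ⟨b₁, hb₁⟩ : ∃ b₁ : Fin n → Bool, b₁ = Function.update b x (a x) := ⟨_, rfl⟩
  have hbx : b₁ x = a x := by rw [hb₁, Function.update_self]
  have hbA : ∀ y ∈ A, b₁ y = b y := by
    intro y hy
    rw [hb₁, Function.update_of_ne]
    rintro rfl
    exact hx hy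
  have hAA : A ⊆ A₁ := by
    rw [hA₁]
    exact Finset.subset_insert x A
  have hxA : x ∈ A₁ := by
    rw [hA₁]
    exact Finset.mem_insert_self x A
  have hmem : ∀ y, y ∈ A₁ → y = x ∨ y ∈ A := by
    intro y hy
    rw [hA₁] at hy
    exact Finset.mem_insert.mp hy
  have hsd : (A₁ \ J).card ≤ (A \ J).card + 1 := by
    have h1 : A₁ \ J ⊆ insert x (A \ J) := by
      intro y hy
      rw [Finset.mem_sdiff] at hy
      rcases hmem y hy.1 with h2 | h2
      · rw [h2]
        exact Finset.mem_insert_self _ _
      · exact Finset.mem_insert_of_mem (Finset.mem_sdiff.mpr ⟨h2, hy.2⟩)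
    exact (Finset.card_le_card h1).trans (Finset.card_insert_le _ _)
  have hsub : J ⊆ A₁ := hI.sub.trans hAA
  have hagree : ∀ y ∈ A₁, y ∉ J → b₁ y = a y := by
    intro y hy hyJ
    rcases hmem y hy with h2 | h2
    · rw [h2]
      exact hbx
    · rw [hbA y h2]
      exact hI.agree y h2 hyJ
  have hallow : ∀ C ∈ T, Allowed (A₁ \ J) J a C ∨ ∃ Q ∈ Qs, Allowed Q J a C := by
    intro C hC
    rcases hI.allow C hC with h2 | h2
    · left
      intro l hl
      rcases h2 l hl with h3 | h3
      · exact Or.inl h3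
      · right
        refine ⟨?_, h3.2⟩
        have h4 := Finset.mem_sdiff.mp h3.1
        exact Finset.mem_sdiff.mpr ⟨hAA h4.1, h4.2⟩
    · exact Or.inr h2
  have hM : ∀ I ⊆ F, (∀ C ∈ I, Open A₁ b₁ C) → J.card + (nb A₁ I).card ≤ 2 * t →
      ∃ b' : Fin n → Bool, (∀ x ∈ A₁, b' x = b₁ x) ∧ ∀ C ∈ I, ∃ l ∈ C, l.1 ∉ A₁ ∧ b' l.1 = l.2 := by
    intro I hIF hopen hcard
    apply match_ext
    intro I' hI'
    rcases I'.eq_empty_or_nonempty with h0 | hne
    · rw [h0, Finset.card_empty]
      exact Nat.zero_le _
    · have hI'F : I' ⊆ F := hI'.trans hIF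
      have hopA : ∀ C ∈ I', Open A b C := by
        intro C hC l hl hlA
        rw [← hbA l.1 hlA]
        exact hopen C (hI' hC) l hl (hAA hlA)
      have hnb : nb A I' ⊆ insert x (nb A₁ I') := by
        intro y hy
        unfold nb at hy
        rw [Finset.mem_sdiff] at hy
        by_cases hyx : y = x
        · rw [hyx]
          exact Finset.mem_insert_self _ _
        · apply Finset.mem_insert_of_mem
          unfold nb
          rw [Finset.mem_sdiff]
          refine ⟨hy.1, fun h => ?_⟩
          rcases hmem y h with h2 | h2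
          · exact hyx h2
          · exact hy.2 h2
      have hnbc : (nb A I').card ≤ (nb A₁ I').card + 1 :=
        (Finset.card_le_card hnb).trans (Finset.card_insert_le _ _)
      have hmono : (nb A₁ I').card ≤ (nb A₁ I).card := by
        apply Finset.card_le_card
        unfold nb
        exact Finset.sdiff_subset_sdiff (Finset.biUnion_subset_biUnion_of_subset_left _ hI') le_rfl
      by_cases hc : J.card + (nb A I').card ≤ 2 * t
      · have h1 := hI.safe I' hI'F hne hopA hc
        omega
      · have hJt := hI.small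
        have heq : J.card + (nb A₁ I').card = 2 * t := by omega
        have hlit : ∀ C ∈ I', ∃ l ∈ C, l.1 ∉ A₁ := by
          intro C hC
          by_contra hcon
          push Not at hcon
          have h1 : nb A {C} ⊆ {x} := by
            intro y hy
            unfold nb at hy
            rw [Finset.mem_sdiff, Finset.singleton_biUnion] at hy
            unfold vars at hy
            obtain ⟨l, hl, hly⟩ := Finset.mem_image.mp hy.1
            have h2 := hcon l hl
            rw [hly] at h2
            rcases hmem y h2 with h3 | h3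
            · exact Finset.mem_singleton.mpr h3
            · exact absurd h3 hy.2
          have h2 : (nb A {C}).card ≤ 1 := by
            have := Finset.card_le_card h1
            rwa [Finset.card_singleton] at this
          have h3 := hI.safe {C} (Finset.singleton_subset_iff.mpr (hI'F hC))
            (Finset.singleton_nonempty C) (by
              intro D hD
              rw [Finset.mem_singleton.mp hD]
              exact hopA C hC) (by omega)
          rw [Finset.card_singleton] at h3
          omega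
        have hdisj : Disjoint J (nb A₁ I') := by
          rw [Finset.disjoint_left]
          intro y hy hy2
          unfold nb at hy2
          rw [Finset.mem_sdiff] at hy2
          exact hy2.2 (hsub hy)
        have hJ' : (J ∪ nb A₁ I').card = J.card + (nb A₁ I').card :=
          Finset.card_union_of_disjoint hdisj
        have hnbm : ∀ C ∈ I', ∀ l ∈ C, l.1 ∉ A₁ → l.1 ∈ nb A₁ I' := by
          intro C hC l hl hlA
          unfold nb
          rw [Finset.mem_sdiff]
          refine ⟨Finset.mem_biUnion.mpr ⟨C, hC, ?_⟩, hlA⟩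
          unfold vars
          exact Finset.mem_image.mpr ⟨l, hl, rfl⟩
        have hty := hTyp (insert (A₁ \ J) Qs) ((Finset.card_insert_le _ _).trans hP) (by
            intro Q hQ'
            rcases Finset.mem_insert.mp hQ' with h2 | h2
            · rw [h2]
              exact hsd.trans hq
            · exact hQ Q h2) (J ∪ nb A₁ I') (by omega) (by omega)
        have hTI : Disjoint T I' := by
          rw [Finset.disjoint_left]
          intro C hCT hCI
          obtain ⟨l, hl, hlJ, hlb⟩ := hI.sat C hCT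
          exact hopA C hCI l hl (hI.sub hlJ) hlb
        have hsubset : T ∪ I' ⊆ (F.filter fun C => Touches (J ∪ nb A₁ I') C ∧
            ∃ Q ∈ insert (A₁ \ J) Qs, Allowed Q (J ∪ nb A₁ I') a C) := by
          intro C hC
          rw [Finset.mem_filter]
          rcases Finset.mem_union.mp hC with hC | hC
          · refine ⟨hI.TF hC, ?_, ?_⟩
            · obtain ⟨l, hl, hlJ, _⟩ := hI.sat C hC
              exact ⟨l, hl, Finset.mem_union_left _ hlJ⟩
            · rcases hallow C hC with h2 | ⟨Q, hQQ, h2⟩
              · refine ⟨A₁ \ J, Finset.mem_insert_self _ _, fun l hl => ?_⟩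
                rcases h2 l hl with h3 | h3
                · exact Or.inl (Finset.mem_union_left _ h3)
                · exact Or.inr h3
              · refine ⟨Q, Finset.mem_insert_of_mem hQQ, fun l hl => ?_⟩
                rcases h2 l hl with h3 | h3
                · exact Or.inl (Finset.mem_union_left _ h3)
                · exact Or.inr h3
          · refine ⟨hI'F hC, ?_, ?_⟩
            · obtain ⟨l, hl, hlA⟩ := hlit C hC
              exact ⟨l, hl, Finset.mem_union_right _ (hnbm C hC l hl hlA)⟩
            · refine ⟨A₁ \ J, Finset.mem_insert_self _ _, fun l hl => ?_⟩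
              by_cases h3 : l.1 ∈ A₁
              · by_cases h4 : l.1 ∈ J
                · exact Or.inl (Finset.mem_union_left _ h4)
                · right
                  refine ⟨Finset.mem_sdiff.mpr ⟨h3, h4⟩, ?_⟩
                  rw [← hagree l.1 h3 h4]
                  exact hopen C (hI' hC) l hl h3
              · exact Or.inl (Finset.mem_union_right _ (hnbm C hC l hl h3))
        have h5 := Finset.card_le_card hsubset
        rw [Finset.card_union_of_disjoint hTI] at h5
        have h6 := hI.card
        have h7 : (F.filter fun C => Touches (J ∪ nb A₁ I') C ∧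
            ∃ Q ∈ insert (A₁ \ J) Qs, Allowed Q (J ∪ nb A₁ I') a C).card <
            (J ∪ nb A₁ I').card := by
          convert hty
        omega
  obtain ⟨A₂, J₂, b₂, T₂, hinv, hsub2, hb2, hsd2⟩ := close_state hTyp hP hQ (hsd.trans hq) hsub
    hagree hI.TF hI.card (by
      intro C hC
      obtain ⟨l, hl, hlJ, hlb⟩ := hI.sat C hC
      exact ⟨l, hl, hlJ, by rw [hbA l.1 (hI.sub hlJ)]; exact hlb⟩) hallow hI.small hM
  refine ⟨A₂, J₂, b₂, T₂, hinv, hAA.trans hsub2, hsub2 hxA, ?_, ?_⟩
  · intro y hy
    rw [hb2 y (hAA hy), hbA y hy]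
  · rw [hsd2]
    exact hsd

end Pool.Agent.H13.LD
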