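import Pool.Agent.H13.LD.Wk
import Pool.Agent.H13.LD.Bal

/-!
# Row Sz: the size of a refutation if there are many typical assignments

PROOF. By `walk` every typical `a` lies in
`univ.filter fun a => ((R.line i).filter fun l => a l.1 = l.2).card ≤ t` for some `i : Fin R.size` that is
good: `μ ≤ (R.line i).card` and different literals of `R.line i` are on different variables. By
`card_ball` each of these sets has at most `2 ^ (n - μ) * ∑ ..` elements. So the number of typical
assignments is at most `R.size * (2 ^ (n - μ) * ∑ ..)` (`Finset.card_biUnion_le` over the good `i`,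
`Finset.sum_le_card_nsmul`).
-/

namespace Pool.Agent.H13.LD

open Finset

open Classical in
theorem card_typ_le {n : ℕ} {F : CNF n} {P q₀ t k w d μ : ℕ}
    (hS : Spread F (2 * t)) (hk : ∀ C ∈ F, C.card ≤ k) (hw : w * k ≤ t) (ht : 1 ≤ t) (hP : 1 ≤ P)
    (hμ : μ ≤ q₀) (hd : d < q₀ + (P - 1) * (q₀ - μ)) (R : Refutation F w d) :
    (univ.filter fun a : Fin n → Bool => Typ F P q₀ t a).card ≤
      R.size * (2 ^ (n - μ) * ∑ i ∈ range (t + 1), n.choose i) := by
  let good : Finset (Fin R.size) := univ.filter fun i => μ ≤ (R.line i).card ∧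
    ∀ l ∈ R.line i, ∀ l' ∈ R.line i, l.1 = l'.1 → l = l'
  let B : Fin R.size → Finset (Fin n → Bool) := fun i =>
    univ.filter fun a : Fin n → Bool => ((R.line i).filter fun l => a l.1 = l.2).card ≤ t
  have hsub : (univ.filter fun a : Fin n → Bool => Typ F P q₀ t a) ⊆ good.biUnion B := by
    intro a ha
    have hT : Typ F P q₀ t a := (Finset.mem_filter.mp ha).2
    obtain ⟨i, h1, h2, h3⟩ := walk hT hS hk hw ht hP hμ hd R
    refine Finset.mem_biUnion.mpr ⟨i, ?_, ?_⟩
    · exact Finset.mem_filter.mpr ⟨Finset.mem_univ _, h1, h3⟩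
    · refine Finset.mem_filter.mpr ⟨Finset.mem_univ _, ?_⟩
      convert h2
  have hB : ∀ i ∈ good, (B i).card ≤ 2 ^ (n - μ) * ∑ i ∈ range (t + 1), n.choose i := by
    intro i hi
    obtain ⟨h1, h3⟩ := (Finset.mem_filter.mp hi).2
    have := card_ball (R.line i) t μ h1 h3
    convert this
  calc (univ.filter fun a : Fin n → Bool => Typ F P q₀ t a).card
      ≤ (good.biUnion B).card := Finset.card_le_card hsub
    _ ≤ ∑ i ∈ good, (B i).card := Finset.card_biUnion_le
    _ ≤ good.card • (2 ^ (n - μ) * ∑ i ∈ range (t + 1), n.choose i) :=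
        Finset.sum_le_card_nsmul _ _ _ hB
    _ = good.card * (2 ^ (n - μ) * ∑ i ∈ range (t + 1), n.choose i) := by rw [smul_eq_mul]
    _ ≤ R.size * (2 ^ (n - μ) * ∑ i ∈ range (t + 1), n.choose i) := by
        refine Nat.mul_le_mul_right _ ?_
        calc good.card ≤ (univ : Finset (Fin R.size)).card := Finset.card_le_card (Finset.filter_subset _ _)
          _ = R.size := by rw [Finset.card_univ, Fintype.card_fin]

end Pool.Agent.H13.LD
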