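import Pool.Agent.H13.LD.Rd
import Pool.Agent.H13.LD.Ph
import Pool.Agent.H13.LD.Lf

/-!
# Row Wk: the walk through the refutation ends in a wide clause

PROOF. Put `g = q₀ - μ`. Show by strong induction on `h`:
CLAIM. Let `i` be a node with `R.height i = h`, `Inv F a t Qs A J b T`,
`∀ l ∈ R.line i, l.1 ∈ A ∧ b l.1 ≠ l.2`, `∀ Q ∈ Qs, Q.card ≤ q₀`, `(A \ J).card ≤ q₀`,
`Qs.card ≤ p`, `p + 1 ≤ P`, and `h < (q₀ - (A \ J).card) + (P - 1 - p) * g`. Then the conclusion of
the theorem holds.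
FIRST assume `(A \ J).card < q₀` (call this CLAIM'). If `R.node i = none`, `leaf_false` with
`R.leaf i` is a contradiction. Let `R.node i = some (x, c)`.
 * `x ∈ A`: put `β = b x`, `i' = c β`. By `R.inner`, `R.line i' ⊆ insert (x, !β) (R.line i)`, so its
   literals are falsified by `b` (for `(x, !β)`: `b x = β ≠ !β`) and on `A`. Use the induction
   hypothesis for `i'` with the same state (`R.height i' < h`).
 * `x ∉ A`: `read_state` gives `(A₂, J₂, b₂, T₂)`; put `β = b₂ x`, `i' = c β`. The literals of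
   `R.line i'` are on `A₂` and falsified by `b₂` (`b₂ = b` on `A`). `(A₂ \ J₂).card ≤ (A \ J).card + 1`,
   so `q₀ - (A₂ \ J₂).card ≥ q₀ - (A \ J).card - 1` and `R.height i' < h`: induction hypothesis.
THEN `(A \ J).card = q₀`. Let `M = vars (R.line i) ⊆ A`. If `μ ≤ (R.line i).card`, take `i`: two
literals of `R.line i` on the same variable `x` both differ from `b x`, so they are equal (`Bool`);
a literal `l ∈ R.line i` with `a l.1 = l.2` has `l.1 ∈ J` (if `l.1 ∈ A \ J` then `b l.1 = a l.1`, but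
`b l.1 ≠ l.2`), and `l ↦ l.1` is injective on `R.line i`, so there are at most `J.card < t` of them.
Otherwise `M.card ≤ (R.line i).card < μ`. As `h < 0 + (P - 1 - p) * g`, `P - 1 - p ≥ 1`, so
`p + 2 ≤ P` and `(P - 1 - p) * g = g + (P - 1 - (p + 1)) * g`. `phase_state` gives a new state with
`Qs' = insert (A \ J) Qs` (`Qs'.card ≤ p + 1`), `(A₂ \ J₂).card ≤ M.card < μ ≤ q₀`, in which the
literals of `R.line i` are on `M ⊆ A₂` and falsified by `b₂`. Since
`g = q₀ - μ ≤ q₀ - (A₂ \ J₂).card`, CLAIM' applies to it (with `p + 1`).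
Start: the root, `A = J = ∅`, `b = a`, `T = ∅`, `Qs = ∅`, `p = 0`. `Inv` holds by `hS`
(`nb ∅ I = I.biUnion vars`, `1 ≤ t`), and `R.height R.root ≤ d < q₀ + (P - 1) * (q₀ - μ)`.
(To organise the induction: prove CLAIM' and CLAIM for height `h` from CLAIM for smaller heights.)
-/

namespace Pool.Agent.H13.LD

open Finset

/-- The conclusion of `walk` for a wide falsified clause. -/
theorem Wk_concl {n : ℕ} {F : CNF n} {t w d μ : ℕ} {a : Fin n → Bool}
    {Qs : Finset (Finset (Fin n))} {A J : Finset (Fin n)} {b : Fin n → Bool}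
    {T : Finset (Clause n)} (hI : Inv F a t Qs A J b T) (R : Refutation F w d) (i : Fin R.size)
    (hl : ∀ l ∈ R.line i, l.1 ∈ A ∧ b l.1 ≠ l.2) (hμ : μ ≤ (R.line i).card) :
    ∃ i, μ ≤ (R.line i).card ∧ ((R.line i).filter fun l => a l.1 = l.2).card ≤ t ∧
      ∀ l ∈ R.line i, ∀ l' ∈ R.line i, l.1 = l'.1 → l = l' := by
  have key : ∀ l ∈ R.line i, ∀ l' ∈ R.line i, l.1 = l'.1 → l = l' := by
    intro l h1 l' h2 h3
    refine Prod.ext h3 ?_
    have h4 := (hl l h1).2
    have h5 := (hl l' h2).2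
    rw [← h3] at h5
    cases h6 : b l.1 <;> cases h7 : l.2 <;> cases h8 : l'.2 <;> simp_all
  refine ⟨i, hμ, ?_, key⟩
  refine le_trans ?_ hI.small.le
  refine Finset.card_le_card_of_injOn (fun l => l.1) ?_ ?_
  · intro l h1
    have h2 := Finset.mem_filter.1 (Finset.mem_coe.1 h1)
    by_contra h3
    have h4 := hI.agree l.1 (hl l h2.1).1 (fun h => h3 (Finset.mem_coe.2 h))
    exact (hl l h2.1).2 (h4.trans h2.2)
  · intro l h1 l' h2 h3
    exact key l (Finset.mem_filter.1 (Finset.mem_coe.1 h1)).1 l'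
      (Finset.mem_filter.1 (Finset.mem_coe.1 h2)).1 h3

theorem Wk_claim {n : ℕ} {F : CNF n} {P q₀ t k w d μ : ℕ} {a : Fin n → Bool}
    (hTyp : Typ F P q₀ t a) (hk : ∀ C ∈ F, C.card ≤ k) (hw : w * k ≤ t)
    (hμ : μ ≤ q₀) (R : Refutation F w d) (h : ℕ) :
    ∀ (i : Fin R.size) (Qs : Finset (Finset (Fin n))) (A J : Finset (Fin n)) (b : Fin n → Bool)
      (T : Finset (Clause n)) (p : ℕ), R.height i = h → Inv F a t Qs A J b T →
      (∀ l ∈ R.line i, l.1 ∈ A ∧ b l.1 ≠ l.2) → (∀ Q ∈ Qs, Q.card ≤ q₀) → (A \ J).card ≤ q₀ →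
      Qs.card ≤ p → p + 1 ≤ P → h < (q₀ - (A \ J).card) + (P - 1 - p) * (q₀ - μ) →
      ∃ i, μ ≤ (R.line i).card ∧ ((R.line i).filter fun l => a l.1 = l.2).card ≤ t ∧
        ∀ l ∈ R.line i, ∀ l' ∈ R.line i, l.1 = l'.1 → l = l' := by
  induction h using Nat.strong_induction_on with
  | _ h ih =>
  have claim' : ∀ (i : Fin R.size) (Qs : Finset (Finset (Fin n))) (A J : Finset (Fin n))
      (b : Fin n → Bool)
      (T : Finset (Clause n)) (p : ℕ), R.height i = h → Inv F a t Qs A J b T →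
      (∀ l ∈ R.line i, l.1 ∈ A ∧ b l.1 ≠ l.2) → (∀ Q ∈ Qs, Q.card ≤ q₀) → (A \ J).card < q₀ →
      Qs.card ≤ p → p + 1 ≤ P → h < (q₀ - (A \ J).card) + (P - 1 - p) * (q₀ - μ) →
      ∃ i, μ ≤ (R.line i).card ∧ ((R.line i).filter fun l => a l.1 = l.2).card ≤ t ∧
        ∀ l ∈ R.line i, ∀ l' ∈ R.line i, l.1 = l'.1 → l = l' := by
    intro i Qs A J b T p hi hI hl hQ hq hQp hpP hh
    rcases hnode : R.node i with _ | ⟨x, c⟩
    · exact (leaf_false hI hk hw hl (R.leaf i hnode)).elim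
    · have hin := R.inner i x c hnode
      by_cases hx : x ∈ A
      · obtain ⟨h1, h2⟩ := hin (b x)
        refine ih (R.height (c (b x))) (hi ▸ h2) (c (b x)) Qs A J b T p rfl hI ?_ hQ hq.le hQp hpP
          (by omega)
        intro l hl'
        rcases Finset.mem_insert.1 (h1 hl') with h3 | h3
        · rw [h3]
          refine ⟨hx, ?_⟩
          simp
        · exact hl l h3
      · obtain ⟨A₂, J₂, b₂, T₂, hI₂, hA₂, hx₂, hb₂, hc₂⟩ :=
          read_state hTyp hI (by omega) hQ (by omega) hx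
        obtain ⟨h1, h2⟩ := hin (b₂ x)
        refine ih (R.height (c (b₂ x))) (hi ▸ h2) (c (b₂ x)) Qs A₂ J₂ b₂ T₂ p rfl hI₂ ?_ hQ
          (by omega) hQp hpP (by omega)
        intro l hl'
        rcases Finset.mem_insert.1 (h1 hl') with h3 | h3
        · rw [h3]
          refine ⟨hx₂, ?_⟩
          simp
        · refine ⟨hA₂ (hl l h3).1, ?_⟩
          rw [hb₂ l.1 (hl l h3).1]
          exact (hl l h3).2
  intro i Qs A J b T p hi hI hl hQ hq hQp hpP hh
  rcases hq.lt_or_eq with hq' | hq'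
  · exact claim' i Qs A J b T p hi hI hl hQ hq' hQp hpP hh
  · by_cases hm : μ ≤ (R.line i).card
    · exact Wk_concl hI R i hl hm
    · have hM : vars (R.line i) ⊆ A := by
        intro y hy
        obtain ⟨l, h1, h2⟩ := Finset.mem_image.1 hy
        rw [← h2]
        exact (hl l h1).1
      have hMc : (vars (R.line i)).card ≤ (R.line i).card := Finset.card_image_le
      rw [hq', Nat.sub_self, Nat.zero_add] at hh
      have hP1 : 1 ≤ P - 1 - p := by
        by_contra h0
        have h00 : P - 1 - p = 0 := by omega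
        rw [h00, Nat.zero_mul] at hh
        omega
      have hsplit : (P - 1 - p) * (q₀ - μ) = (q₀ - μ) + (P - 1 - (p + 1)) * (q₀ - μ) := by
        have : P - 1 - p = (P - 1 - (p + 1)) + 1 := by omega
        rw [this, Nat.add_mul, Nat.one_mul, Nat.add_comm]
      obtain ⟨A₂, J₂, b₂, T₂, hI₂, hA₂, hb₂, hc₂⟩ :=
        phase_state hTyp hI (by omega) hQ hq hM
      refine claim' i (insert (A \ J) Qs) A₂ J₂ b₂ T₂ (p + 1) hi hI₂ ?_ ?_ (by omega) ?_ (by omega)
        (by omega)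
      · intro l h1
        have h2 : l.1 ∈ vars (R.line i) := Finset.mem_image.2 ⟨l, h1, rfl⟩
        refine ⟨hA₂ h2, ?_⟩
        rw [hb₂ l.1 h2]
        exact (hl l h1).2
      · intro Q hQ'
        rcases Finset.mem_insert.1 hQ' with h1 | h1
        · rw [h1]
          exact hq
        · exact hQ Q h1
      · exact (Finset.card_insert_le _ _).trans (Nat.succ_le_succ hQp)

theorem walk {n : ℕ} {F : CNF n} {P q₀ t k w d μ : ℕ} {a : Fin n → Bool} (hTyp : Typ F P q₀ t a)
    (hS : Spread F (2 * t)) (hk : ∀ C ∈ F, C.card ≤ k) (hw : w * k ≤ t) (ht : 1 ≤ t) (hP : 1 ≤ P)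
    (hμ : μ ≤ q₀) (hd : d < q₀ + (P - 1) * (q₀ - μ)) (R : Refutation F w d) :
    ∃ i, μ ≤ (R.line i).card ∧ ((R.line i).filter fun l => a l.1 = l.2).card ≤ t ∧
      ∀ l ∈ R.line i, ∀ l' ∈ R.line i, l.1 = l'.1 → l = l' := by
  have hI : Inv F a t ∅ ∅ ∅ a ∅ := by
    refine ⟨Finset.Subset.refl _, fun x hx => absurd hx (Finset.notMem_empty x),
      Finset.empty_subset _, le_rfl, fun C hC => absurd hC (Finset.notMem_empty C),
      fun C hC => absurd hC (Finset.notMem_empty C), ?_, ?_⟩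
    · rw [Finset.card_empty]
      exact ht
    · intro I hIF hne _ hc
      unfold nb at hc ⊢
      rw [Finset.sdiff_empty] at hc ⊢
      rw [Finset.card_empty, Nat.zero_add] at hc
      exact hS I hIF hne hc
  refine Wk_claim hTyp hk hw hμ R (R.height R.root) R.root ∅ ∅ ∅ a ∅ 0 rfl hI ?_ ?_ ?_ ?_ ?_ ?_
  · intro l hl
    rw [R.root_line] at hl
    exact absurd hl (Finset.notMem_empty l)
  · intro Q hQ
    exact absurd hQ (Finset.notMem_empty Q)
  · simp
  · simp
  · exact hP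
  · have h1 := R.root_height
    have h2 : ((∅ : Finset (Fin n)) \ ∅).card = 0 := by simp
    rw [h2, Nat.sub_zero, Nat.sub_zero]
    exact lt_of_le_of_lt h1 hd

end Pool.Agent.H13.LD
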