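import Pool.Agent.H13.LD.Core

/-!
# Row Xc: the number of `k`-tuples of literals that are allowed and touch `J`

PROOF. Every such `g` belongs, for some `p : Fin P` and some position `s : Fin k` with
`(g s).1 ∈ J`, to the `Fintype.piFinset` of the sets `J ×ˢ univ` (position `s`) and
`(J ×ˢ univ) ∪ (Q p).image (fun v => (v, !a v))` (the other positions: if `(g r).1 ∈ Q p` and
`a (g r).1 ≠ (g r).2` then `g r = (v, !a v)` with `v = (g r).1`). The first set has `2 * J.card` elements,
the second at most `2 * J.card + q₀`. So the number is at most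
`∑ p, ∑ s, (2 * J.card) * (2 * J.card + q₀) ^ (k - 1)` (`Finset.card_biUnion_le`,
`Fintype.card_piFinset`, `Finset.prod_ite`).
-/

namespace Pool.Agent.H13.LD

open Finset

/-- The tuples of literals, one of them on `J`, that are allowed for one of the sets `Q p`. -/
def tuples {n : ℕ} (k : ℕ) {P : ℕ} (Q : Fin P → Finset (Fin n)) (J : Finset (Fin n))
    (a : Fin n → Bool) : Finset (Fin k → Lit n) :=
  univ.filter fun g => (∃ s, (g s).1 ∈ J) ∧
    ∃ p, ∀ s, (g s).1 ∈ J ∨ ((g s).1 ∈ Q p ∧ a (g s).1 ≠ (g s).2)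

/-- The allowed literals at the position `r`. -/
def Xc_set {n k P : ℕ} (Q : Fin P → Finset (Fin n)) (J : Finset (Fin n)) (a : Fin n → Bool)
    (p : Fin P) (s r : Fin k) : Finset (Lit n) :=
  if r = s then J ×ˢ univ else (J ×ˢ univ) ∪ (Q p).image (fun v => (v, !a v))

theorem Xc_J {n : ℕ} {J : Finset (Fin n)} {l : Lit n} (h : l.1 ∈ J) :
    l ∈ J ×ˢ (univ : Finset Bool) := Finset.mem_product.2 ⟨h, Finset.mem_univ _⟩

theorem card_tuples_le {n k P q₀ : ℕ} (Q : Fin P → Finset (Fin n)) (hQ : ∀ p, (Q p).card ≤ q₀)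
    (J : Finset (Fin n)) (a : Fin n → Bool) :
    (tuples k Q J a).card ≤ P * k * (2 * J.card) * (2 * J.card + q₀) ^ (k - 1) := by
  have hsub : tuples k Q J a ⊆ (univ : Finset (Fin P)).biUnion fun p =>
      (univ : Finset (Fin k)).biUnion fun s => Fintype.piFinset (Xc_set Q J a p s) := by
    intro g hg
    unfold tuples at hg
    rw [Finset.mem_filter] at hg
    obtain ⟨-, ⟨s, hs⟩, p, hp⟩ := hg
    refine Finset.mem_biUnion.2 ⟨p, Finset.mem_univ _, Finset.mem_biUnion.2 ⟨s, Finset.mem_univ _, ?_⟩⟩
    rw [Fintype.mem_piFinset]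
    intro r
    unfold Xc_set
    by_cases hr : r = s
    · rw [if_pos hr, hr]
      exact Xc_J hs
    · rw [if_neg hr]
      rcases hp r with h | ⟨h1, h2⟩
      · exact Finset.mem_union_left _ (Xc_J h)
      · refine Finset.mem_union_right _ (Finset.mem_image.2 ⟨(g r).1, h1, ?_⟩)
        refine Prod.ext rfl ?_
        show (!a (g r).1) = (g r).2
        revert h2
        cases a (g r).1 <;> cases (g r).2 <;> simp
  have hJ : (J ×ˢ (univ : Finset Bool)).card = 2 * J.card := by
    rw [Finset.card_product, Finset.card_univ, Fintype.card_bool, mul_comm]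
  have hone : ∀ (p : Fin P) (s : Fin k), (Fintype.piFinset (Xc_set Q J a p s)).card ≤
      2 * J.card * (2 * J.card + q₀) ^ (k - 1) := by
    intro p s
    rw [Fintype.card_piFinset, ← Finset.mul_prod_erase univ _ (Finset.mem_univ s)]
    have h1 : (Xc_set Q J a p s s).card = 2 * J.card := by
      unfold Xc_set
      rw [if_pos rfl, hJ]
    have h2 : ∏ r ∈ univ.erase s, (Xc_set Q J a p s r).card ≤
        (2 * J.card + q₀) ^ (univ.erase s).card := by
      refine Finset.prod_le_pow_card _ _ _ fun r hr => ?_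
      unfold Xc_set
      rw [if_neg (Finset.ne_of_mem_erase hr)]
      refine (Finset.card_union_le _ _).trans ?_
      rw [hJ]
      exact Nat.add_le_add_left (Finset.card_image_le.trans (hQ p)) _
    rw [Finset.card_erase_of_mem (Finset.mem_univ s), Finset.card_univ, Fintype.card_fin] at h2
    rw [h1]
    exact Nat.mul_le_mul_left _ h2
  refine (Finset.card_le_card hsub).trans (Finset.card_biUnion_le.trans ?_)
  have h3 : ∀ p : Fin P, ((univ : Finset (Fin k)).biUnion fun s =>
      Fintype.piFinset (Xc_set Q J a p s)).card ≤ k * (2 * J.card * (2 * J.card + q₀) ^ (k - 1)) := by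
    intro p
    refine Finset.card_biUnion_le.trans ((Finset.sum_le_sum fun s _ => hone p s).trans ?_)
    rw [Finset.sum_const, Finset.card_univ, Fintype.card_fin, smul_eq_mul]
  refine (Finset.sum_le_sum fun p _ => h3 p).trans ?_
  rw [Finset.sum_const, Finset.card_univ, Fintype.card_fin, smul_eq_mul]
  apply le_of_eq
  ring

end Pool.Agent.H13.LD
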